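import Pool.Agent.TL8.Sq

/-!
# Positivity and size of the scalars of real rows
-/

set_option autoImplicit false

namespace Pool.Agent.TL8

open Matrix Finset Filter Topology
open Pool.Agent.EXL.Fm (lam)

/-! ### the pair function of the bulk -/

/-- `sin (3 l + w) sin (3 l - w) tan (4 w / 3) / sin w`, in a form without singularity at `0` -/
noncomputable def rhc (w : ℝ) : ℝ := (Real.cos (2 * w) + √2 / 2) / 2 *
  (4 * Real.cos (w / 3) * Real.cos (2 * w / 3) / (Real.cos (4 * w / 3) * (3 - 4 * Real.sin (w / 3) ^ 2)))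

theorem c2_pos {w : ℝ} (h : |w| < 3 * Real.pi / 8) : 0 < Real.cos (2 * w) + √2 / 2 := by
  have hp := Real.pi_pos
  have h1 : Real.cos (3 * Real.pi / 4) = -(√2 / 2) := by
    rw [show 3 * Real.pi / 4 = Real.pi - Real.pi / 4 by ring, Real.cos_pi_sub, Real.cos_pi_div_four]
  have h2 : Real.cos (3 * Real.pi / 4) < Real.cos (2 * w) := by
    rw [← Real.cos_abs (2 * w)]
    apply Real.cos_lt_cos_of_nonneg_of_le_pi (abs_nonneg _) (by linarith)
    rw [abs_mul, abs_two]
    linarith
  linarith

theorem den_pos {w : ℝ} (h : |w| < 3 * Real.pi / 8) : 0 < 3 - 4 * Real.sin (w / 3) ^ 2 := by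
  have hp := Real.pi_pos
  have h1 : |w / 3| < Real.pi / 6 := by
    rw [abs_div, abs_of_pos (by norm_num : (0 : ℝ) < 3)]
    linarith
  have h2 : |Real.sin (w / 3)| ≤ 1 / 2 := by
    rw [abs_lt] at h1
    rw [abs_le]
    constructor
    · have : Real.sin (-(Real.pi / 6)) ≤ Real.sin (w / 3) :=
        Real.sin_le_sin_of_le_of_le_pi_div_two (by linarith) (by linarith [h1.2]) h1.1.le
      rw [Real.sin_neg, Real.sin_pi_div_six] at this
      linarith
    · have : Real.sin (w / 3) ≤ Real.sin (Real.pi / 6) :=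
        Real.sin_le_sin_of_le_of_le_pi_div_two (by linarith [h1.1]) (by linarith) h1.2.le
      rw [Real.sin_pi_div_six] at this
      exact this
  have h3 : Real.sin (w / 3) ^ 2 ≤ (1 / 2) ^ 2 := by
    rw [← sq_abs]
    exact pow_le_pow_left₀ (abs_nonneg _) h2 2
  linarith

theorem c4_pos {w : ℝ} (h : |w| < 3 * Real.pi / 8) : 0 < Real.cos (4 * w / 3) := by
  rw [abs_lt] at h
  exact Real.cos_pos_of_mem_Ioo ⟨by linarith [h.1], by linarith [h.2]⟩

theorem rhc_pos {w : ℝ} (h : |w| < 3 * Real.pi / 8) : 0 < rhc w := by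
  have h1 := c2_pos h
  have h2 := den_pos h
  have h3 := c4_pos h
  have h4 : 0 < Real.cos (w / 3) := by
    rw [abs_lt] at h
    exact Real.cos_pos_of_mem_Ioo ⟨by linarith [h.1, Real.pi_pos], by linarith [h.2, Real.pi_pos]⟩
  have h5 : 0 < Real.cos (2 * w / 3) := by
    rw [abs_lt] at h
    exact Real.cos_pos_of_mem_Ioo ⟨by linarith [h.1, Real.pi_pos], by linarith [h.2, Real.pi_pos]⟩
  unfold rhc
  positivity

theorem rhc_cont {w : ℝ} (h : |w| < 3 * Real.pi / 8) : ContinuousAt rhc w := by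
  unfold rhc
  refine ContinuousAt.mul (by fun_prop) (ContinuousAt.div (by fun_prop) (by fun_prop) ?_)
  exact (mul_pos (c4_pos h) (den_pos h)).ne'

theorem rhc_eq {w : ℝ} (h : |w| < 3 * Real.pi / 8) (hs : Real.sin w ≠ 0) :
    rhc w = (Real.cos (2 * w) + √2 / 2) / (2 * Real.sin w) * Real.tan (4 / 3 * w) := by
  have h2 := (den_pos h).ne'
  have h3 := (c4_pos h).ne'
  have e1 : Real.sin w = Real.sin (w / 3) * (3 - 4 * Real.sin (w / 3) ^ 2) := by
    conv_lhs => rw [show w = 3 * (w / 3) by ring, Real.sin_three_mul]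
    ring
  have e2 : Real.tan (4 / 3 * w) = 4 * Real.sin (w / 3) * Real.cos (w / 3) * Real.cos (2 * w / 3) /
      Real.cos (4 * w / 3) := by
    rw [Real.tan_eq_sin_div_cos, show 4 / 3 * w = 4 * w / 3 by ring]
    congr 1
    rw [show 4 * w / 3 = 2 * (2 * w / 3) by ring, Real.sin_two_mul]
    have : Real.sin (2 * w / 3) = 2 * Real.sin (w / 3) * Real.cos (w / 3) := by
      rw [← Real.sin_two_mul]; congr 1; ring
    rw [this]
    ring
  have h4 : Real.sin (w / 3) ≠ 0 := by
    intro h0
    apply hs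
    rw [e1, h0, zero_mul]
  rw [e2, e1]
  unfold rhc
  field_simp

theorem rhc_even (w : ℝ) : rhc (-w) = rhc w := by
  unfold rhc
  rw [show 2 * -w = -(2 * w) by ring, show -w / 3 = -(w / 3) by ring, show -(2 * w) / 3 = -(2 * w / 3) by ring,
    show 4 * -w / 3 = -(4 * w / 3) by ring, Real.cos_neg, Real.cos_neg, Real.cos_neg, Real.cos_neg, Real.sin_neg]
  ring

/-- the bulk term -/
noncomputable def bulk {n : ℕ} (x : Fin n → ℝ) : ℝ := (2 / 3) ^ n * (∏ i, ∏ j ∈ Ioi i, rhc (x i - x j)) ^ 2

theorem bulk_pos {n : ℕ} (x : Fin n → ℝ) (hx : ∀ i j, |x i - x j| < 3 * Real.pi / 8) : 0 < bulk x := by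
  unfold bulk
  have : 0 < ∏ i, ∏ j ∈ Ioi i, rhc (x i - x j) :=
    Finset.prod_pos fun i _ => Finset.prod_pos fun j _ => rhc_pos (hx i j)
  positivity

/-! ### the scalars are real -/

theorem BF_list {n : ℕ} (x : Fin n → ℝ) : BF x = IT8.B ((List.ofFn x).map fun t : ℝ => (t : ℂ)) := by
  unfold BF
  rw [List.ofFn_eq_map, List.map_map]
  exact (IT8.B_map (fun i : Fin n => (x i : ℂ)) (List.finRange n)).symm

theorem B_real (X : List ℝ) : (IT8.B (X.map fun t : ℝ => (t : ℂ))).im = 0 := by
  have h := NUT8.b_real X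
  exact Complex.conj_eq_iff_im.1 h

theorem BF_im {n : ℕ} (x : Fin n → ℝ) : (BF x).im = 0 := by
  rw [BF_list]
  exact B_real _

theorem BF_re {n : ℕ} (x : Fin n → ℝ) : BF x = (((BF x).re : ℝ) : ℂ) :=
  Complex.ext rfl (by rw [BF_im, Complex.ofReal_im])

theorem BF_cont {n : ℕ} {f : ℝ → Fin n → ℝ} (h : ∀ i, Continuous fun t => f t i) :
    Continuous fun t => (BF (f t)).re := by
  refine Complex.continuous_re.comp ?_
  exact NUBD.cont_BD (f := fun t i => (f t i : ℂ)) fun k _ => Complex.continuous_ofReal.comp (h k)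

/-! ### generic rows -/

theorem gen_le {m : ℕ} (x : Fin (2 * m) → ℝ) (hx : ∀ i j, |x i - x j| < 3 * Real.pi / 8)
    (h8 : ∀ i j, i ≠ j → Real.sin (8 * (x i - x j)) ≠ 0) :
    bulk x ≤ (BF x).re ^ 2 ∧ (BF x).re ^ 2 ≤ (9 / 4) ^ m * bulk x := by
  have hs : ∀ i j, i ≠ j → Real.sin (x i - x j) ≠ 0 := by
    intro i j hij h
    obtain ⟨k, hk⟩ := Real.sin_eq_zero_iff.1 h
    apply h8 i j hij
    rw [← hk, show 8 * ((k : ℝ) * Real.pi) = ((8 * k : ℤ) : ℝ) * Real.pi by push_cast; ring]
    exact Real.sin_int_mul_pi _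
  have h1 := BF_sq x h8 hs fun i j => (c2_pos (hx i j)).ne'
  set G := ∏ i, ∏ j ∈ Ioi i, ((Real.cos (2 * (x i - x j)) + √2 / 2) / (2 * Real.sin (x i - x j))) with hG
  set K := (Matrix.of fun i j => Real.sin (2 * (x i - x j)) / (Real.cos (2 * (x i - x j)) + √2 / 2)).det with hK
  have h2 : (BF x).re ^ 2 = G ^ 2 * K := by
    rw [BF_re x, ← Complex.ofReal_pow] at h1
    exact Complex.ofReal_injective h1
  have h3 : (Matrix.of fun i j => 2 / 3 * Real.tan (4 / 3 * (x i - x j))).det =
      (2 / 3) ^ (2 * m) * (∏ i, ∏ j ∈ Ioi i, Real.tan (4 / 3 * (x i - x j))) ^ 2 := by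
    have e1 : (Matrix.of fun i j => 2 / 3 * Real.tan (4 / 3 * (x i - x j))) =
        (2 / 3 : ℝ) • Matrix.of fun i j => Real.tan (4 / 3 * x i - 4 / 3 * x j) := by
      ext i j
      simp only [Matrix.of_apply, Matrix.smul_apply, smul_eq_mul, mul_sub]
    rw [e1, Matrix.det_smul, Fintype.card_fin, det_tan m (fun i => 4 / 3 * x i)]
    · simp only [mul_sub]
    · intro i j
      rw [← mul_sub, show 4 / 3 * (x i - x j) = 4 * (x i - x j) / 3 by ring]
      exact (c4_pos (hx i j)).ne'
    · intro i j hij h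
      have h4 := abs_lt.1 (hx i j)
      have h5 : Real.sin (x i - x j) = 0 := by
        rw [← mul_sub] at h
        have h6 : 4 / 3 * (x i - x j) = 0 := by
          by_contra hne
          rcases lt_or_gt_of_ne hne with hlt | hgt
          · exact absurd h (Real.sin_neg_of_neg_of_neg_pi_lt hlt (by linarith [h4.1, Real.pi_pos])).ne
          · exact absurd h (Real.sin_pos_of_pos_of_lt_pi hgt (by linarith [h4.2, Real.pi_pos])).ne'
        rw [show x i - x j = 0 by linarith, Real.sin_zero]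
      exact hs i j hij h5
  have h4 : bulk x = G ^ 2 * (Matrix.of fun i j => 2 / 3 * Real.tan (4 / 3 * (x i - x j))).det := by
    rw [h3, bulk]
    have e2 : (∏ i, ∏ j ∈ Ioi i, rhc (x i - x j)) = G * ∏ i, ∏ j ∈ Ioi i, Real.tan (4 / 3 * (x i - x j)) := by
      rw [hG, ← Finset.prod_mul_distrib]
      refine Finset.prod_congr rfl fun i _ => ?_
      rw [← Finset.prod_mul_distrib]
      refine Finset.prod_congr rfl fun j hj => ?_
      exact rhc_eq (hx i j) (hs i j (Finset.mem_Ioi.1 hj).ne)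
    rw [e2]
    ring
  obtain ⟨h5, h6⟩ := det_le_rows x hx
  rw [h2, h4]
  constructor
  · exact mul_le_mul_of_nonneg_left h5 (sq_nonneg G)
  · refine (mul_le_mul_of_nonneg_left h6 (sq_nonneg G)).trans (le_of_eq ?_)
    ring

/-! ### all rows -/

theorem ev_sin (w : ℝ) : ∀ᶠ t in 𝓝[≠] w, Real.sin (8 * t) ≠ 0 := by
  by_cases h : Real.sin (8 * w) = 0
  · have h1 : HasDerivAt (fun t : ℝ => Real.sin (8 * t)) (Real.cos (8 * w) * (8 * 1)) w :=
      (((hasDerivAt_id w).const_mul 8).sin)
    refine h1.eventually_ne ?_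
    have h2 : Real.cos (8 * w) ≠ 0 := by
      intro h3
      have := Real.sin_sq_add_cos_sq (8 * w)
      rw [h, h3] at this
      norm_num at this
    exact mul_ne_zero h2 (by norm_num)
  · have h1 : ContinuousAt (fun t : ℝ => Real.sin (8 * t)) w := by fun_prop
    exact (h1.eventually_ne h).filter_mono nhdsWithin_le_nhds

/-- the shifted rows -/
noncomputable def xs {n : ℕ} (x : Fin n → ℝ) (e : ℝ) (i : Fin n) : ℝ := x i + e * i

theorem all_le {m : ℕ} (x : Fin (2 * m) → ℝ) (hx : ∀ i j, |x i - x j| < 3 * Real.pi / 8) :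
    bulk x ≤ (BF x).re ^ 2 ∧ (BF x).re ^ 2 ≤ (9 / 4) ^ m * bulk x := by
  have hd : ∀ i j, Continuous fun e => xs x e i - xs x e j := fun i j => by unfold xs; fun_prop
  have h0 : xs x 0 = x := by
    funext i
    simp [xs]
  have hev : ∀ᶠ e in 𝓝[>] (0 : ℝ), bulk (xs x e) ≤ (BF (xs x e)).re ^ 2 ∧
      (BF (xs x e)).re ^ 2 ≤ (9 / 4) ^ m * bulk (xs x e) := by
    have h1 : ∀ᶠ e in 𝓝[>] (0 : ℝ), ∀ i j, |xs x e i - xs x e j| < 3 * Real.pi / 8 := by
      rw [eventually_all]
      intro i
      rw [eventually_all]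
      intro j
      have : ContinuousAt (fun e => |xs x e i - xs x e j|) 0 := (hd i j).abs.continuousAt
      exact (this.eventually_lt continuousAt_const (by rw [h0]; exact hx i j)).filter_mono nhdsWithin_le_nhds
    have h2 : ∀ᶠ e in 𝓝[>] (0 : ℝ), ∀ i j, i ≠ j → Real.sin (8 * (xs x e i - xs x e j)) ≠ 0 := by
      rw [eventually_all]
      intro i
      rw [eventually_all]
      intro j
      by_cases hij : i = j
      · exact Eventually.of_forall fun e h => absurd hij h
      · have h3 : Tendsto (fun e => xs x e i - xs x e j) (𝓝[>] (0 : ℝ)) (𝓝[≠] (x i - x j)) := by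
          rw [tendsto_nhdsWithin_iff]
          constructor
          · have := (hd i j).tendsto 0
            rw [h0] at this
            exact this.mono_left nhdsWithin_le_nhds
          · filter_upwards [self_mem_nhdsWithin] with e he
            rw [Set.mem_compl_iff, Set.mem_singleton_iff]
            intro h
            have h4 : e * ((i : ℝ) - j) = 0 := by
              unfold xs at h
              linarith
            rcases mul_eq_zero.1 h4 with h5 | h5
            · exact absurd h5 (ne_of_gt he)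
            · apply hij
              apply Fin.ext
              have : ((i : ℕ) : ℝ) = (j : ℕ) := by linarith
              exact_mod_cast this
        filter_upwards [h3.eventually (ev_sin _)] with e he _
        exact he
    filter_upwards [h1, h2] with e h1 h2
    exact gen_le _ h1 h2
  have hb : Tendsto (fun e => bulk (xs x e)) (𝓝[>] (0 : ℝ)) (𝓝 (bulk x)) := by
    have : ContinuousAt (fun e => bulk (xs x e)) 0 := by
      unfold bulk
      refine ContinuousAt.mul continuousAt_const (ContinuousAt.pow ?_ 2)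
      refine tendsto_finset_prod _ fun i _ => tendsto_finset_prod _ fun j _ => ?_
      have h1 : ContinuousAt rhc (xs x 0 i - xs x 0 j) := by
        rw [h0]
        exact rhc_cont (hx i j)
      exact ContinuousAt.comp (f := fun e => xs x e i - xs x e j) (x := 0) h1 (hd i j).continuousAt
    have h1 := this.tendsto
    rw [h0] at h1
    exact h1.mono_left nhdsWithin_le_nhds
  have hF : Tendsto (fun e => (BF (xs x e)).re ^ 2) (𝓝[>] (0 : ℝ)) (𝓝 ((BF x).re ^ 2)) := by
    have h1 : Continuous fun e => (BF (xs x e)).re ^ 2 := (BF_cont fun i => by unfold xs; fun_prop).pow 2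
    have h2 := h1.tendsto 0
    rw [h0] at h2
    exact h2.mono_left nhdsWithin_le_nhds
  exact ⟨le_of_tendsto_of_tendsto hb hF (hev.mono fun e h => h.1),
    le_of_tendsto_of_tendsto hF (hb.const_mul _) (hev.mono fun e h => h.2)⟩

/-! ### the sign -/

theorem BF_ne {m : ℕ} (x : Fin (2 * m) → ℝ) (hx : ∀ i j, |x i - x j| < 3 * Real.pi / 8) : (BF x).re ≠ 0 := by
  intro h
  have h1 := (all_le x hx).1
  rw [h] at h1
  have := bulk_pos x hx
  norm_num at h1
  linarith

theorem sign_contr {m : ℕ} (x : Fin (2 * m) → ℝ) (hx : ∀ i j, |x i - x j| < 3 * Real.pi / 8) :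
    0 < (BF x).re ↔ 0 < (BF (0 : Fin (2 * m) → ℝ)).re := by
  have hc : Continuous fun t : ℝ => (BF (fun i => t * x i)).re := BF_cont fun i => by fun_prop
  have hne : ∀ t ∈ Set.Icc (0 : ℝ) 1, (BF (fun i => t * x i)).re ≠ 0 := by
    intro t ht
    apply BF_ne
    intro i j
    rw [← mul_sub, abs_mul, abs_of_nonneg ht.1]
    calc t * |x i - x j| ≤ 1 * |x i - x j| := mul_le_mul_of_nonneg_right ht.2 (abs_nonneg _)
      _ < 3 * Real.pi / 8 := by rw [one_mul]; exact hx i j
  have e1 : (BF (fun i => (1 : ℝ) * x i)) = BF x := by simp only [one_mul]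
  have e0 : (BF (fun i => (0 : ℝ) * x i)) = BF (0 : Fin (2 * m) → ℝ) := by
    simp only [zero_mul]
    rfl
  have h01 : (0 : ℝ) ≤ 1 := zero_le_one
  constructor
  · intro h
    by_contra hneg
    have h2 : (BF (fun i => (0 : ℝ) * x i)).re ≤ 0 := by rw [e0]; exact not_lt.1 hneg
    have h3 : (0 : ℝ) ∈ Set.Icc ((BF (fun i => (0 : ℝ) * x i)).re) ((BF (fun i => (1 : ℝ) * x i)).re) :=
      ⟨h2, by rw [e1]; exact h.le⟩
    obtain ⟨t, ht, h4⟩ := intermediate_value_Icc h01 hc.continuousOn h3
    exact hne t ht h4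
  · intro h
    by_contra hneg
    have h2 : (BF (fun i => (1 : ℝ) * x i)).re ≤ 0 := by rw [e1]; exact not_lt.1 hneg
    have h3 : (0 : ℝ) ∈ Set.Icc ((BF (fun i => (1 : ℝ) * x i)).re) ((BF (fun i => (0 : ℝ) * x i)).re) :=
      ⟨h2, by rw [e0]; exact h.le⟩
    obtain ⟨t, ht, h4⟩ := intermediate_value_Icc' h01 hc.continuousOn h3
    exact hne t ht h4

/-- the list form -/
theorem sign_list {m : ℕ} (X : List ℝ) (hl : X.length = 2 * m) (hX : ∀ t ∈ X, |t| ≤ Real.pi / 8) :
    0 < (IT8.B (X.map fun t : ℝ => (t : ℂ))).re ↔ 0 < (BF (0 : Fin (2 * m) → ℝ)).re := by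
  obtain ⟨x, rfl⟩ : ∃ x : Fin (2 * m) → ℝ, X = List.ofFn x := by
    have : ∀ n, X.length = n → ∃ x : Fin n → ℝ, X = List.ofFn x := by
      rintro n rfl
      exact ⟨X.get, (List.ofFn_get X).symm⟩
    exact this _ hl
  rw [← BF_list]
  apply sign_contr
  intro i j
  have h1 := hX _ (List.mem_ofFn.2 ⟨i, rfl⟩)
  have h2 := hX _ (List.mem_ofFn.2 ⟨j, rfl⟩)
  have hp := Real.pi_pos
  calc |x i - x j| ≤ |x i| + |x j| := abs_sub _ _
    _ < 3 * Real.pi / 8 := by linarith

theorem lam_re : ((Real.pi / 8 : ℝ) : ℂ) = lam := by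
  unfold Pool.Agent.EXL.Fm.lam
  push_cast
  ring

/-- fusion of real rows `-l, l` -/
theorem fuse_sign (X : List ℝ) (hX : ∀ t ∈ X, |t| ≤ Real.pi / 8) :
    0 < (IT8.B ((-(Real.pi / 8) :: Real.pi / 8 :: X).map fun t : ℝ => (t : ℂ))).re ↔
      0 < (IT8.B ((0 :: X).map fun t : ℝ => (t : ℂ))).re := by
  have hp := Real.pi_pos
  have h := IT8.fuse0 (X.map fun t : ℝ => (t : ℂ))
  have e1 : ((-(Real.pi / 8) :: Real.pi / 8 :: X).map fun t : ℝ => (t : ℂ)) =
      -lam :: lam :: (X.map fun t : ℝ => (t : ℂ)) := by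
    rw [List.map_cons, List.map_cons, Complex.ofReal_neg, lam_re]
  have e2 : ((0 :: X).map fun t : ℝ => (t : ℂ)) = 0 :: (X.map fun t : ℝ => (t : ℂ)) := by
    rw [List.map_cons, Complex.ofReal_zero]
  have e3 : (((X.map fun t : ℝ => (t : ℂ)).map fun k => Complex.cos k).prod) =
      (((X.map Real.cos).prod : ℝ) : ℂ) := by
    clear h e1 e2 hX
    induction X with
    | nil => simp
    | cons a X ih =>
      rw [List.map_cons, List.map_cons, List.prod_cons, ih, List.map_cons, List.prod_cons]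
      push_cast
      rfl
  have h3 : 0 < (X.map Real.cos).prod := by
    apply List.prod_pos
    intro c hc
    obtain ⟨t, ht, rfl⟩ := List.mem_map.1 hc
    have := abs_le.1 (hX t ht)
    exact Real.cos_pos_of_mem_Ioo ⟨by linarith [this.1], by linarith [this.2]⟩
  have e4 : Complex.cos (2 * lam) = ((√2 / 2 : ℝ) : ℂ) := by
    rw [← lam_re, ← Real.cos_pi_div_four]
    push_cast
    congr 1
    ring
  rw [e1, h, ← e2, e3, e4, mul_assoc, Complex.re_ofReal_mul, Complex.re_ofReal_mul]
  have h4 : 0 < √2 / 2 := by positivity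
  rw [mul_pos_iff_of_pos_left h4, mul_pos_iff_of_pos_left h3]

theorem B_perm' {X Y : List ℝ} (h : X.Perm Y) :
    IT8.B (X.map fun t : ℝ => (t : ℂ)) = IT8.B (Y.map fun t : ℝ => (t : ℂ)) := IT8.B_perm (h.map _)

theorem B_single : IT8.B [0] = 1 := by
  have h := NUBD.BD_cons (z := fun x : ℂ => x) (p := (0 : ℂ)) (X := []) List.nodup_nil (by simp)
  unfold IT8.B
  rw [h]
  simp [NUBD.BD_nil]

/-- equal rows -/
theorem zero_pos : ∀ m : ℕ, 0 < (BF (0 : Fin (2 * m) → ℝ)).re := by
  have hp := Real.pi_pos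
  have h0 : |(0 : ℝ)| ≤ Real.pi / 8 := by rw [abs_zero]; positivity
  have hl : |Real.pi / 8| ≤ Real.pi / 8 := (abs_of_pos (by positivity)).le
  have hl' : |-(Real.pi / 8)| ≤ Real.pi / 8 := by rw [abs_neg]; exact hl
  have hz : ∀ k, ∀ t ∈ List.replicate k (0 : ℝ), |t| ≤ Real.pi / 8 := fun k t ht => by
    rw [(List.mem_replicate.1 ht).2]
    exact h0
  intro m
  induction m with
  | zero =>
    have : BF (0 : Fin (2 * 0) → ℝ) = 1 := NUBD.BD_nil
    rw [this, Complex.one_re]
    exact one_pos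
  | succ m ih =>
    rcases m with _ | m
    · rw [← sign_list [-(Real.pi / 8), Real.pi / 8] rfl (by simp [hl, hl']), fuse_sign [] (by simp)]
      have : (([0] : List ℝ).map fun t : ℝ => (t : ℂ)) = [0] := by simp
      rw [this, B_single, Complex.one_re]
      exact one_pos
    · -- `- l, l, - l, l, 0 ^ (2 m)`
      have hk : ∀ t ∈ (-(Real.pi / 8) :: Real.pi / 8 :: List.replicate (2 * m) (0 : ℝ)), |t| ≤ Real.pi / 8 := by
        intro t ht
        rcases List.mem_cons.1 ht with rfl | ht
        · exact hl'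
        · rcases List.mem_cons.1 ht with rfl | ht
          · exact hl
          · exact hz _ t ht
      rw [← sign_list (-(Real.pi / 8) :: Real.pi / 8 :: (-(Real.pi / 8) :: Real.pi / 8 :: List.replicate (2 * m) (0 : ℝ)))
        (by simp only [List.length_cons, List.length_replicate]; ring) (by
          intro t ht
          rcases List.mem_cons.1 ht with rfl | ht
          · exact hl'
          · rcases List.mem_cons.1 ht with rfl | ht
            · exact hl
            · exact hk t ht), fuse_sign _ hk]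
      have e1 : (0 :: (-(Real.pi / 8) :: Real.pi / 8 :: List.replicate (2 * m) (0 : ℝ))).Perm
          (-(Real.pi / 8) :: Real.pi / 8 :: (0 :: List.replicate (2 * m) (0 : ℝ))) := by
        refine (List.Perm.swap _ _ _).trans (List.Perm.cons _ ?_)
        exact List.Perm.swap _ _ _
      rw [B_perm' e1, fuse_sign _ (by
        intro t ht
        rcases List.mem_cons.1 ht with rfl | ht
        · exact h0
        · exact hz _ t ht)]
      rw [show (0 : ℝ) :: 0 :: List.replicate (2 * m) (0 : ℝ) = List.replicate (2 * m + 1 + 1) (0 : ℝ) by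
        rw [List.replicate_succ, List.replicate_succ]]
      exact (sign_list (m := m + 1) _ (by rw [List.length_replicate]; ring) (hz _)).2 ih

/-- **Positivity of the scalars**, real rows in `[- l, l]`, even number. -/
theorem B_pos {m : ℕ} (X : List ℝ) (hl : X.length = 2 * m) (hX : ∀ t ∈ X, |t| ≤ Real.pi / 8) :
    0 < (IT8.B (X.map fun t : ℝ => (t : ℂ))).re := (sign_list X hl hX).2 (zero_pos m)

/-- odd number, with a row `0` -/
theorem B_pos_odd {m : ℕ} (X : List ℝ) (hl : X.length = 2 * m) (hX : ∀ t ∈ X, |t| ≤ Real.pi / 8) :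
    0 < (IT8.B ((0 :: X).map fun t : ℝ => (t : ℂ))).re := by
  have hp := Real.pi_pos
  have hl1 : |Real.pi / 8| ≤ Real.pi / 8 := (abs_of_pos (by positivity)).le
  rw [← fuse_sign X hX]
  refine B_pos (m := m + 1) _ (by simp only [List.length_cons, hl]; ring) ?_
  intro t ht
  rcases List.mem_cons.1 ht with rfl | ht
  · rw [abs_neg]
    exact hl1
  · rcases List.mem_cons.1 ht with rfl | ht
    · exact hl1
    · exact hX t ht

/-! ### the rows `0 ^ a l ^ b` -/

theorem rows_map (a b : ℕ) : (List.replicate a (0 : ℝ) ++ List.replicate b (Real.pi / 8)).map (fun t : ℝ => (t : ℂ)) =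
    List.replicate a (0 : ℂ) ++ List.replicate b lam := by
  rw [List.map_append, List.map_replicate, List.map_replicate, Complex.ofReal_zero, lam_re]

theorem rows_abs (a b : ℕ) : ∀ t ∈ List.replicate a (0 : ℝ) ++ List.replicate b (Real.pi / 8), |t| ≤ Real.pi / 8 := by
  have hp := Real.pi_pos
  intro t ht
  rcases List.mem_append.1 ht with ht | ht
  · rw [(List.mem_replicate.1 ht).2, abs_zero]
    positivity
  · rw [(List.mem_replicate.1 ht).2, abs_of_pos (by positivity)]

theorem beta_im (a b : ℕ) : (IT8.beta a b).im = 0 := by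
  unfold IT8.beta
  rw [← rows_map]
  exact B_real _

theorem beta_pos (a b : ℕ) : 0 < (IT8.beta a b).re := by
  rcases Nat.even_or_odd' (a + b) with ⟨m, hm | hm⟩
  · unfold IT8.beta
    rw [← rows_map]
    exact B_pos (m := m) _ (by simp only [List.length_append, List.length_replicate]; exact hm) (rows_abs a b)
  · have key : ∀ a b : ℕ, a + 1 + b = 2 * m + 1 → 0 < (IT8.beta (a + 1) b).re := by
      intro a b h
      rw [← IT8.beta_zero_cons, ← rows_map]
      have e : (0 : ℂ) :: (List.replicate a (0 : ℝ) ++ List.replicate b (Real.pi / 8)).map (fun t : ℝ => (t : ℂ)) =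
          ((0 : ℝ) :: (List.replicate a (0 : ℝ) ++ List.replicate b (Real.pi / 8))).map (fun t : ℝ => (t : ℂ)) := by
        rw [List.map_cons, Complex.ofReal_zero]
      rw [e]
      exact B_pos_odd (m := m) _ (by simp only [List.length_append, List.length_replicate]; omega) (rows_abs a b)
    rcases a with _ | a
    · rcases b with _ | b
      · omega
      · rw [IT8.beta_comm]
        exact key b 0 (by omega)
    · exact key a b hm

/-! ### the bulk term of the rows `0 ^ a l ^ b` -/

/-- products over the pairs of a list -/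
def PL (f : ℝ → ℝ → ℝ) : List ℝ → ℝ
  | [] => 1
  | x :: X => (X.map (f x)).prod * PL f X

theorem PL_ofFn (f : ℝ → ℝ → ℝ) : ∀ {n : ℕ} (x : Fin n → ℝ), PL f (List.ofFn x) = ∏ i, ∏ j ∈ Ioi i, f (x i) (x j) := by
  intro n
  induction n with
  | zero => intro x; simp [PL]
  | succ n ih =>
    intro x
    rw [List.ofFn_succ, PL, ih, Fin.prod_univ_succ]
    congr 1
    · rw [Fin.prod_Ioi_zero, List.map_ofFn, List.prod_ofFn]
      rfl
    · refine Finset.prod_congr rfl fun i _ => ?_
      rw [Fin.prod_Ioi_succ]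

theorem rhc_zero : rhc 0 = (2 + √2) / 3 := by
  unfold rhc
  simp
  ring

theorem sqrt2_sq : √2 * √2 = 2 := Real.mul_self_sqrt (by norm_num)

theorem rhc_lam : rhc (Real.pi / 8) ^ 2 = (2 + √2) / 3 := by
  have hp := Real.pi_pos
  have h : |Real.pi / 8| < 3 * Real.pi / 8 := by rw [abs_of_pos (by positivity)]; linarith
  have hs : 0 < Real.sin (Real.pi / 8) := Real.sin_pos_of_pos_of_lt_pi (by positivity) (by linarith)
  rw [rhc_eq h hs.ne', show 2 * (Real.pi / 8) = Real.pi / 4 by ring, show 4 / 3 * (Real.pi / 8) = Real.pi / 6 by ring,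
    Real.cos_pi_div_four, Real.tan_pi_div_six, mul_pow, div_pow, div_pow, Real.sq_sqrt (by norm_num : (0 : ℝ) ≤ 3)]
  have h1 : Real.sin (Real.pi / 8) ^ 2 = (2 - √2) / 4 := by
    rw [Real.sin_pi_div_eight, div_pow, Real.sq_sqrt]
    · norm_num
    · have : √2 ≤ √4 := Real.sqrt_le_sqrt (by norm_num)
      rw [show (4 : ℝ) = 2 ^ 2 by norm_num, Real.sqrt_sq (by norm_num)] at this
      linarith
  have h2 : (0 : ℝ) < 2 - √2 := by
    have h3 : √2 < √4 := Real.sqrt_lt_sqrt (by norm_num) (by norm_num)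
    rw [show (4 : ℝ) = 2 ^ 2 by norm_num, Real.sqrt_sq (by norm_num)] at h3
    linarith
  rw [mul_pow, h1]
  have h4 := sqrt2_sq
  rw [div_mul_div_comm, div_eq_div_iff (by positivity) (by norm_num)]
  nlinarith

theorem rhc_neg_lam : rhc (0 - Real.pi / 8) ^ 2 = (2 + √2) / 3 := by
  rw [zero_sub, rhc_even, rhc_lam]

theorem PL_lam (b : ℕ) : PL (fun x y => rhc (x - y) ^ 2) (List.replicate b (Real.pi / 8)) =
    ((2 + √2) / 3) ^ (b * (b - 1)) := by
  induction b with
  | zero => simp [PL]
  | succ b ih =>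
    rw [List.replicate_succ, PL, ih, List.map_replicate, List.prod_replicate, sub_self, rhc_zero, ← pow_mul,
      ← pow_add]
    congr 1
    rcases b with _ | b
    · simp
    · simp only [Nat.add_sub_cancel]
      ring

theorem PL_rows (a b : ℕ) : PL (fun x y => rhc (x - y) ^ 2) (List.replicate a 0 ++ List.replicate b (Real.pi / 8)) =
    ((2 + √2) / 3) ^ (a * (a - 1) + b * (b - 1) + a * b) := by
  induction a with
  | zero =>
    simp only [List.replicate_zero, List.nil_append, zero_mul, zero_add, add_zero]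
    exact PL_lam b
  | succ a ih =>
    rw [List.replicate_succ, List.cons_append, PL, ih, List.map_append, List.prod_append, List.map_replicate,
      List.map_replicate, List.prod_replicate, List.prod_replicate, sub_self, rhc_zero, rhc_neg_lam, ← pow_mul,
      ← pow_add, ← pow_add]
    congr 1
    rcases a with _ | a
    · simp
      ring
    · simp only [Nat.add_sub_cancel]
      ring

theorem rows_le {a b m : ℕ} (h : a + b = 2 * m) :
    (2 / 3) ^ (a + b) * ((2 + √2) / 3) ^ (a * (a - 1) + b * (b - 1) + a * b) ≤ (IT8.beta a b).re ^ 2 ∧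
    (IT8.beta a b).re ^ 2 ≤ (9 / 4) ^ m *
      ((2 / 3) ^ (a + b) * ((2 + √2) / 3) ^ (a * (a - 1) + b * (b - 1) + a * b)) := by
  have hp := Real.pi_pos
  have hl : (List.replicate a (0 : ℝ) ++ List.replicate b (Real.pi / 8)).length = 2 * m := by
    simp only [List.length_append, List.length_replicate]
    exact h
  obtain ⟨x, hx⟩ : ∃ x : Fin (2 * m) → ℝ, List.replicate a (0 : ℝ) ++ List.replicate b (Real.pi / 8) = List.ofFn x := by
    have : ∀ (X : List ℝ) (n : ℕ), X.length = n → ∃ x : Fin n → ℝ, X = List.ofFn x := by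
      rintro X n rfl
      exact ⟨X.get, (List.ofFn_get X).symm⟩
    exact this _ _ hl
  have hmem : ∀ i, x i = 0 ∨ x i = Real.pi / 8 := by
    intro i
    have h1 : x i ∈ List.replicate a (0 : ℝ) ++ List.replicate b (Real.pi / 8) := by
      rw [hx]
      exact List.mem_ofFn.2 ⟨i, rfl⟩
    rcases List.mem_append.1 h1 with h2 | h2
    · exact Or.inl (List.mem_replicate.1 h2).2
    · exact Or.inr (List.mem_replicate.1 h2).2
  have hd : ∀ i j, |x i - x j| < 3 * Real.pi / 8 := by
    intro i j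
    rcases hmem i with h1 | h1 <;> rcases hmem j with h2 | h2 <;> rw [h1, h2]
    · rw [sub_zero, abs_zero]; positivity
    · rw [zero_sub, abs_neg, abs_of_pos (by positivity)]; linarith
    · rw [sub_zero, abs_of_pos (by positivity)]; linarith
    · rw [sub_self, abs_zero]; positivity
  have h1 := all_le x hd
  have h2 : BF x = IT8.beta a b := by
    rw [BF_list, ← hx, rows_map]
    rfl
  have h3 : bulk x = (2 / 3) ^ (a + b) * ((2 + √2) / 3) ^ (a * (a - 1) + b * (b - 1) + a * b) := by
    rw [bulk, h, ← PL_rows, hx, PL_ofFn]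
    congr 1
    rw [← Finset.prod_pow]
    exact Finset.prod_congr rfl fun i _ => (Finset.prod_pow _ _ _).symm
  rw [h2, h3] at h1
  exact h1

theorem blk_le {a b m : ℕ} (h : a + b = 2 * m) :
    (2 / 3) ^ (a + b) * ((2 + √2) / 3) ^ (a * (a - 1) + b * (b - 1) + a * b) ≤ (IT8.beta a b).re ^ 2 := (rows_le h).1

theorem le_blk {a b m : ℕ} (h : a + b = 2 * m) : (IT8.beta a b).re ^ 2 ≤ (9 / 4) ^ m *
    ((2 / 3) ^ (a + b) * ((2 + √2) / 3) ^ (a * (a - 1) + b * (b - 1) + a * b)) := (rows_le h).2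

end Pool.Agent.TL8
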