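import Pool.Agent.TL8.PPf

/-!
# The square of the Pfaffian is the determinant
-/

set_option autoImplicit false

namespace Pool.Agent.TL8

open Matrix Finset Filter Topology

variable {κ : Type*} [Fintype κ] [DecidableEq κ]

/-- derivative of `ppf` -/
noncomputable def Dp (M X : Matrix (κ × Bool) (κ × Bool) ℝ) : ℝ :=
  ∑ σ : Equiv.Perm (κ × Bool), ((Equiv.Perm.sign σ : ℤ) : ℝ) *
    ∑ j, (∏ i ∈ univ.erase j, M (σ (i, false)) (σ (i, true))) • X (σ (j, false)) (σ (j, true))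

/-- derivative of `det` -/
noncomputable def Dd (M X : Matrix (κ × Bool) (κ × Bool) ℝ) : ℝ :=
  ∑ σ : Equiv.Perm (κ × Bool), ((Equiv.Perm.sign σ : ℤ) : ℝ) *
    ∑ j, (∏ i ∈ univ.erase j, M (σ i) i) • X (σ j) j

theorem ppf_deriv {c : ℝ → Matrix (κ × Bool) (κ × Bool) ℝ} {X : Matrix (κ × Bool) (κ × Bool) ℝ} {s : ℝ}
    (hc : ∀ a b, HasDerivAt (fun h => c h a b) (X a b) s) :
    HasDerivAt (fun h => ppf (c h)) (Dp (c s) X) s := by
  unfold ppf Dp
  refine HasDerivAt.fun_sum fun σ _ => ?_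
  refine HasDerivAt.const_mul _ ?_
  exact HasDerivAt.fun_finset_prod fun j _ => hc _ _

theorem det_deriv {c : ℝ → Matrix (κ × Bool) (κ × Bool) ℝ} {X : Matrix (κ × Bool) (κ × Bool) ℝ} {s : ℝ}
    (hc : ∀ a b, HasDerivAt (fun h => c h a b) (X a b) s) :
    HasDerivAt (fun h => (c h).det) (Dd (c s) X) s := by
  have h1 : ∀ h, (c h).det = ∑ σ : Equiv.Perm (κ × Bool), ((Equiv.Perm.sign σ : ℤ) : ℝ) * ∏ i, c h (σ i) i :=
    fun h => Matrix.det_apply' _
  simp only [h1]
  unfold Dd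
  refine HasDerivAt.fun_sum fun σ _ => ?_
  refine HasDerivAt.const_mul _ ?_
  exact HasDerivAt.fun_finset_prod fun j _ => hc _ _

/-- the congruence curve -/
noncomputable def cu (A M : Matrix (κ × Bool) (κ × Bool) ℝ) (h : ℝ) : Matrix (κ × Bool) (κ × Bool) ℝ :=
  (1 + h • A) * M * (1 + h • A)ᵀ

theorem cu_eq (A M : Matrix (κ × Bool) (κ × Bool) ℝ) (h : ℝ) :
    cu A M h = M + h • (A * M + M * Aᵀ) + (h * h) • (A * M * Aᵀ) := by
  unfold cu
  rw [Matrix.transpose_add, Matrix.transpose_one, Matrix.transpose_smul, add_mul, one_mul, mul_add, mul_one,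
    Matrix.smul_mul, add_mul, Matrix.mul_smul, Matrix.smul_mul, Matrix.mul_smul, smul_smul, smul_add]
  abel

theorem cu_deriv (A M : Matrix (κ × Bool) (κ × Bool) ℝ) (a b : κ × Bool) :
    HasDerivAt (fun h => cu A M h a b) ((A * M + M * Aᵀ) a b) 0 := by
  have h1 : ∀ h, cu A M h a b = M a b + h * (A * M + M * Aᵀ) a b + (h * h) * (A * M * Aᵀ) a b := by
    intro h
    rw [cu_eq]
    simp only [Matrix.add_apply, Matrix.smul_apply, smul_eq_mul]
  simp only [h1]
  have h2 : HasDerivAt (fun h : ℝ => M a b + h * (A * M + M * Aᵀ) a b + (h * h) * (A * M * Aᵀ) a b)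
      (0 + 1 * (A * M + M * Aᵀ) a b + (1 * 0 + 0 * 1) * (A * M * Aᵀ) a b) 0 :=
    (((hasDerivAt_const (0 : ℝ) (M a b)).add ((hasDerivAt_id (0 : ℝ)).mul_const _))).add
      (((hasDerivAt_id (0 : ℝ)).mul (hasDerivAt_id (0 : ℝ))).mul_const _)
  simpa using h2

theorem det_one_deriv (A : Matrix (κ × Bool) (κ × Bool) ℝ) :
    HasDerivAt (fun h : ℝ => (1 + h • A).det) A.trace 0 := by
  set p : Polynomial ℝ := (det (1 + (Polynomial.X : Polynomial ℝ) • A.map Polynomial.C)).divX.divX with hp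
  have h1 : ∀ h : ℝ, (1 + h • A).det = 1 + A.trace * h + p.eval h * h ^ 2 := fun h => Matrix.det_one_add_smul h A
  simp only [h1]
  have h2 : HasDerivAt (fun h : ℝ => 1 + A.trace * h + p.eval h * h ^ 2)
      (0 + A.trace * 1 + (p.derivative.eval 0 * 0 ^ 2 + p.eval 0 * (((2 : ℕ) : ℝ) * 0 ^ (2 - 1) * 1))) 0 :=
    (((hasDerivAt_const (0 : ℝ) (1 : ℝ)).add ((hasDerivAt_id (0 : ℝ)).const_mul _))).add
      ((p.hasDerivAt 0).mul ((hasDerivAt_id (0 : ℝ)).pow 2))
  simpa using h2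

theorem Dp_eq {A M X : Matrix (κ × Bool) (κ × Bool) ℝ} (h : A * M + M * Aᵀ = X) :
    Dp M X = A.trace * ppf M := by
  have h1 := ppf_deriv (c := cu A M) (s := 0) (X := X) (fun a b => by rw [← h]; exact cu_deriv A M a b)
  have h0 : cu A M 0 = M := by rw [cu_eq]; simp
  rw [h0] at h1
  have h2 : HasDerivAt (fun h => ppf (cu A M h)) (A.trace * ppf M) 0 := by
    unfold cu
    simp only [ppf_conj]
    exact (det_one_deriv A).mul_const _
  exact h1.unique h2

theorem Dd_eq {A M X : Matrix (κ × Bool) (κ × Bool) ℝ} (h : A * M + M * Aᵀ = X) :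
    Dd M X = 2 * A.trace * M.det := by
  have h1 := det_deriv (c := cu A M) (s := 0) (X := X) (fun a b => by rw [← h]; exact cu_deriv A M a b)
  have h0 : cu A M 0 = M := by rw [cu_eq]; simp
  rw [h0] at h1
  have h2 : HasDerivAt (fun h => (cu A M h).det)
      ((A.trace * M.det) * (1 + (0 : ℝ) • A).det + ((1 + (0 : ℝ) • A).det * M.det) * A.trace) 0 := by
    unfold cu
    simp only [Matrix.det_mul, Matrix.det_transpose]
    exact ((det_one_deriv A).mul_const _).mul (det_one_deriv A)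
  rw [zero_smul, add_zero, Matrix.det_one] at h2
  rw [h1.unique h2]
  ring

theorem half_cong {M X : Matrix (κ × Bool) (κ × Bool) ℝ} (hM : Mᵀ = -M) (hX : Xᵀ = -X) (hd : M.det ≠ 0) :
    ((1 / 2 : ℝ) • (X * M⁻¹)) * M + M * ((1 / 2 : ℝ) • (X * M⁻¹))ᵀ = X := by
  have hu : IsUnit M.det := isUnit_iff_ne_zero.2 hd
  have h1 : X * M⁻¹ * M = X := by rw [Matrix.mul_assoc, Matrix.nonsing_inv_mul M hu, mul_one]
  have h2 : M * (M⁻¹)ᵀ = -1 := by
    have h3 : (M⁻¹ * M)ᵀ = 1 := by rw [Matrix.nonsing_inv_mul M hu, Matrix.transpose_one]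
    rw [Matrix.transpose_mul, hM, neg_mul] at h3
    rw [← h3, neg_neg]
  rw [Matrix.smul_mul, h1, Matrix.transpose_smul, Matrix.transpose_mul, Matrix.mul_smul, ← Matrix.mul_assoc, h2,
    hX]
  rw [neg_one_mul, neg_neg, ← add_smul]
  norm_num

/-- **The square of the Pfaffian.** -/
theorem ppf_sq {M : Matrix (κ × Bool) (κ × Bool) ℝ} (hM : Mᵀ = -M) :
    ppf M ^ 2 = ppf (Jst (κ := κ)) ^ 2 * M.det := by
  set J : Matrix (κ × Bool) (κ × Bool) ℝ := Jst with hJ
  set X := M - J with hX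
  have hXT : Xᵀ = -X := by rw [hX, Matrix.transpose_sub, hM, hJ, Jst_T]; abel
  set P : ℝ → Matrix (κ × Bool) (κ × Bool) ℝ := fun s => J + s • X with hP
  have hPT : ∀ s, (P s)ᵀ = - P s := fun s => by
    simp only [hP, Matrix.transpose_add, Matrix.transpose_smul, hXT, hJ, Jst_T, smul_neg, neg_add]
  have hPd : ∀ s a b, HasDerivAt (fun h => P h a b) (X a b) s := by
    intro s a b
    have h1 : (fun h => P h a b) = fun h => J a b + h * X a b := by
      funext h
      simp [hP]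
    rw [h1]
    simpa using (hasDerivAt_id s).mul_const (X a b) |>.const_add (J a b)
  set f : ℝ → ℝ := fun s => ppf (P s) with hf
  set g : ℝ → ℝ := fun s => (P s).det with hg
  have hfd : ∀ s, HasDerivAt f (Dp (P s) X) s := fun s => ppf_deriv (hPd s)
  have hgd : ∀ s, HasDerivAt g (Dd (P s) X) s := fun s => det_deriv (hPd s)
  have hg0 : g 0 = 1 := by
    simp only [hg, hP, zero_smul, add_zero]
    exact Jst_det
  have hf0 : f 0 = ppf J := by
    simp only [hf, hP, zero_smul, add_zero]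
  have hgc : Continuous g := continuous_iff_continuousAt.2 fun s => (hgd s).continuousAt
  obtain ⟨δ, hδ, hne⟩ : ∃ δ > 0, ∀ s ∈ Metric.ball (0 : ℝ) δ, g s ≠ 0 := by
    have h1 : ∀ᶠ s in 𝓝 (0 : ℝ), g s ≠ 0 := (hgc.tendsto 0).eventually_ne (by rw [hg0]; exact one_ne_zero)
    exact Metric.eventually_nhds_iff_ball.1 h1
  have hq : ∀ s ∈ Metric.ball (0 : ℝ) δ, HasDerivAt (fun s => f s ^ 2 / g s) 0 s := by
    intro s hs
    have hdet := hne s hs
    set A := (1 / 2 : ℝ) • (X * (P s)⁻¹) with hA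
    have h1 : A * P s + P s * Aᵀ = X := half_cong (hPT s) hXT hdet
    have h2 := (((hfd s).pow 2).div (hgd s) hdet)
    refine h2.congr_deriv ?_
    rw [Dp_eq h1, Dd_eq h1]
    simp only [hf, hg, Pi.pow_apply]
    rw [div_eq_zero_iff]
    left
    push_cast
    ring
  have hconst : ∀ s ∈ Metric.ball (0 : ℝ) δ, f s ^ 2 / g s = f 0 ^ 2 / g 0 := by
    intro s hs
    have hdiff : DifferentiableOn ℝ (fun s => f s ^ 2 / g s) (Metric.ball (0 : ℝ) δ) := fun t ht =>
      (hq t ht).differentiableAt.differentiableWithinAt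
    refine Metric.isOpen_ball.is_const_of_deriv_eq_zero (convex_ball (0 : ℝ) δ).isPreconnected hdiff
      (fun t ht => (hq t ht).deriv) hs (Metric.mem_ball_self hδ)
  have hfa : AnalyticOnNhd ℝ (fun s => f s ^ 2) Set.univ := by
    intro s _
    simp only [hf, hP, ppf, Matrix.add_apply, Matrix.smul_apply, smul_eq_mul]
    fun_prop
  have hga : AnalyticOnNhd ℝ (fun s => ppf J ^ 2 * g s) Set.univ := by
    intro s _
    have h1 : ∀ s, g s = ∑ σ : Equiv.Perm (κ × Bool), ((Equiv.Perm.sign σ : ℤ) : ℝ) * ∏ i, P s (σ i) i :=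
      fun s => Matrix.det_apply' _
    simp only [h1, hP, Matrix.add_apply, Matrix.smul_apply, smul_eq_mul]
    fun_prop
  have hev : (fun s => f s ^ 2) =ᶠ[𝓝 0] fun s => ppf J ^ 2 * g s := by
    filter_upwards [Metric.ball_mem_nhds (0 : ℝ) hδ] with s hs
    have h1 := hconst s hs
    rw [hg0, hf0, div_one, div_eq_iff (hne s hs)] at h1
    exact h1
  have hall := hfa.eq_of_eventuallyEq hga hev
  have h1 := congrFun hall 1
  simpa [hf, hg, hP, hX] using h1

end Pool.Agent.TL8
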