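import Pool.Agent.TL8.TP
import Pool.Agent.TL8.PDet

/-!
# The integral formula of de Bruijn and two inequalities
-/

set_option autoImplicit false

namespace Pool.Agent.TL8

open Matrix Finset MeasureTheory

/-! ### the Vandermonde product of a symmetric list -/

theorem VP_succ' {n : ℕ} (c : Fin (n + 1) → ℝ) :
    VP c = (∏ j : Fin n, (c j.succ - c 0)) * VP (fun j : Fin n => c j.succ) := by
  rw [VP_succ]
  congr 1
  unfold VP
  refine Finset.prod_congr rfl fun i _ => Finset.prod_congr rfl fun j _ => ?_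
  ring

/-- the symmetric list `k 0, - k 0, k 1, - k 1, ...` -/
noncomputable def cs (k : ℕ → ℝ) (i : ℕ) : ℝ := if i % 2 = 0 then k (i / 2) else - k (i / 2)

theorem cs_sq (k : ℕ → ℝ) (i : ℕ) : cs k i ^ 2 = k (i / 2) ^ 2 := by
  unfold cs
  split_ifs <;> ring

theorem cs_add_two (k : ℕ → ℝ) (i : ℕ) : cs k (i + 2) = cs (fun j => k (j + 1)) i := by
  unfold cs
  rw [Nat.add_mod_right, Nat.add_div_right _ (by norm_num : 0 < 2)]

theorem prod_half (F : ℕ → ℝ) (m : ℕ) : ∏ i ∈ range (2 * m), F (i / 2) = ∏ i ∈ range m, F i ^ 2 := by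
  induction m with
  | zero => simp
  | succ m ih =>
    rw [show 2 * (m + 1) = 2 * m + 1 + 1 by ring, Finset.prod_range_succ, Finset.prod_range_succ, ih,
      Finset.prod_range_succ, show (2 * m + 1) / 2 = m by omega, show 2 * m / 2 = m by omega]
    ring

theorem VP_cs : ∀ (m : ℕ) (k : ℕ → ℝ), (∀ i < m, 0 < k i) → (∀ i < m, ∀ j < m, i ≠ j → k i ≠ k j) →
    0 < (-1) ^ m * VP (fun i : Fin (2 * m) => cs k i) := by
  intro m
  induction m with
  | zero =>
    intro k _ _
    simp [VP]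
  | succ m ih =>
    intro k hk hd
    have e1 : VP (fun i : Fin (2 * (m + 1)) => cs k i) =
        (∏ j : Fin (2 * m + 1), (cs k (j + 1) - cs k 0)) * ((∏ j : Fin (2 * m), (cs k (j + 2) - cs k 1)) *
          VP (fun i : Fin (2 * m) => cs (fun j => k (j + 1)) i)) := by
      rw [show (fun i : Fin (2 * (m + 1)) => cs k i) = (fun i : Fin (2 * m + 1 + 1) => cs k i) from rfl, VP_succ']
      congr 1
      · rw [VP_succ']
        congr 1
        unfold VP
        refine Finset.prod_congr rfl fun i _ => Finset.prod_congr rfl fun j _ => ?_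
        simp only [Fin.val_succ, ← cs_add_two]
    have h0 : cs k 0 = k 0 := by simp [cs]
    have h1 : cs k 1 = - k 0 := by simp [cs]
    rw [e1, Fin.prod_univ_succ, h0, h1]
    have h2 : cs k ((0 : Fin (2 * m + 1)) + 1) = - k 0 := by simpa using h1
    rw [h2]
    have e2 : (∏ j : Fin (2 * m), (cs k ((j.succ : Fin (2 * m + 1)) + 1) - k 0)) *
        (∏ j : Fin (2 * m), (cs k (j + 2) - - k 0)) = ∏ i ∈ range m, (k (i + 1) ^ 2 - k 0 ^ 2) ^ 2 := by
      rw [← Finset.prod_mul_distrib, ← prod_half (fun i => k (i + 1) ^ 2 - k 0 ^ 2), Finset.prod_range]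
      refine Finset.prod_congr rfl fun j _ => ?_
      have h3 := cs_sq k (j + 2)
      rw [Nat.add_div_right _ (by norm_num : 0 < 2)] at h3
      rw [Fin.val_succ, show (j : ℕ) + 1 + 1 = j + 2 by ring, ← h3]
      ring
    have h4 : 0 < ∏ i ∈ range m, (k (i + 1) ^ 2 - k 0 ^ 2) ^ 2 := by
      refine Finset.prod_pos fun i hi => ?_
      have hi' := Finset.mem_range.1 hi
      have h5 : k (i + 1) ≠ k 0 := hd _ (by omega) _ (by omega) (by omega)
      have h6 := hk (i + 1) (by omega)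
      have h7 := hk 0 (by omega)
      have h8 : k (i + 1) ^ 2 - k 0 ^ 2 ≠ 0 := by
        intro h
        apply h5
        have : (k (i + 1) - k 0) * (k (i + 1) + k 0) = 0 := by linarith
        rcases mul_eq_zero.1 this with h | h <;> linarith
      positivity
    have h5 := ih (fun j => k (j + 1)) (fun i hi => hk _ (by omega))
      (fun i hi j hj hij => hd _ (by omega) _ (by omega) (by omega))
    have h6 := hk 0 (by omega)
    have := mul_pos (mul_pos (mul_pos two_pos h6) h4) h5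
    refine this.trans_eq ?_
    rw [← e2, pow_succ]
    ring

/-! ### the sign of the determinant -/

/-- the numbering of the pairs -/
def eP (m : ℕ) : Fin m × Bool ≃ Fin (2 * m) :=
  ((Equiv.prodCongr (Equiv.refl _) finTwoEquiv.symm).trans finProdFinEquiv).trans (finCongr (mul_comm m 2))

theorem eP_f {m : ℕ} (j : Fin m) : ((eP m (j, false) : Fin (2 * m)) : ℕ) = 2 * j := by
  simp [eP, finTwoEquiv]

theorem eP_t {m : ℕ} (j : Fin m) : ((eP m (j, true) : Fin (2 * m)) : ℕ) = 2 * j + 1 := by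
  simp [eP, finTwoEquiv]
  ring

theorem sign_WM {m : ℕ} (x : Fin (2 * m) → ℝ) (hx : Monotone x) (k : Fin m → ℝ) (hk : ∀ j, 0 < k j) :
    0 ≤ (-1) ^ m * (WM (fun j a => Real.exp (k j * x (eP m a))) (fun j a => Real.exp (-(k j) * x (eP m a)))).det := by
  by_cases hd : Function.Injective k
  · set kk : ℕ → ℝ := fun i => if h : i < m then k ⟨i, h⟩ else 0 with hkk
    have hkj : ∀ j : Fin m, kk j = k j := fun j => by simp [hkk]
    have h1 := VP_cs m kk (fun i hi => by simp only [hkk, dif_pos hi]; exact hk _) (fun i hi j hj hij => by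
      simp only [hkk, dif_pos hi, dif_pos hj]
      intro h
      exact hij (by simpa using hd h))
    have h2 := tp (fun i : Fin (2 * m) => cs kk i) x hx
    have h3 : (WM (fun j a => Real.exp (k j * x (eP m a))) (fun j a => Real.exp (-(k j) * x (eP m a)))) =
        (EM (fun i : Fin (2 * m) => cs kk i) x).submatrix (eP m) (eP m) := by
      ext a ⟨j, b⟩
      cases b
      · simp only [WM, Matrix.of_apply, Matrix.submatrix_apply, EM, eP_f, cs]
        rw [if_neg (by simp), if_pos (by omega), show 2 * (j : ℕ) / 2 = j by omega, hkj]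
      · simp only [WM, Matrix.of_apply, Matrix.submatrix_apply, EM, eP_t, cs]
        rw [if_pos trivial, if_neg (by omega), show (2 * (j : ℕ) + 1) / 2 = j by omega, hkj]
    rw [h3, Matrix.det_submatrix_equiv_self]
    by_contra hneg
    push Not at hneg
    have h4 : (EM (fun i : Fin (2 * m) => cs kk i) x).det * VP (fun i : Fin (2 * m) => cs kk i) =
        ((-1) ^ m * (EM (fun i : Fin (2 * m) => cs kk i) x).det) * ((-1) ^ m * VP (fun i : Fin (2 * m) => cs kk i)) := by
      have : ((-1 : ℝ) ^ m) * (-1) ^ m = 1 := by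
        rw [← mul_pow]; simp
      linear_combination (-(EM (fun i : Fin (2 * m) => cs kk i) x).det * VP (fun i : Fin (2 * m) => cs kk i)) * this
    rw [h4] at h2
    exact absurd (mul_neg_of_neg_of_pos hneg h1) (not_lt.2 h2)
  · rw [Function.Injective] at hd
    simp only [not_forall] at hd
    obtain ⟨i, j, hij, hne⟩ := hd
    rw [Matrix.det_zero_of_column_eq (i := (i, false)) (j := (j, false)) (by simpa using hne), mul_zero]
    intro a
    simp [WM, hij]

/-! ### the integral formula -/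

/-- the kernel -/
noncomputable def ik (w : ℝ → ℝ) (x y k : ℝ) : ℝ :=
  w k * (Real.exp (k * x) * Real.exp (-k * y) - Real.exp (-k * x) * Real.exp (k * y))

noncomputable def KI (w : ℝ → ℝ) (x y : ℝ) : ℝ := ∫ k, ik w x y k

/-- the integrand -/
noncomputable def IG {m : ℕ} (w : ℝ → ℝ) (x : Fin (2 * m) → ℝ) (k : Fin m → ℝ) : ℝ :=
  (∏ j, w (k j)) * (2 ^ m * (WM (fun j a => Real.exp (k j * x (eP m a)))
    (fun j a => Real.exp (-(k j) * x (eP m a)))).det)

theorem IG_eq {m : ℕ} (w : ℝ → ℝ) (x : Fin (2 * m) → ℝ) (k : Fin m → ℝ) :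
    IG w x k = ∑ σ : Equiv.Perm (Fin m × Bool), ((Equiv.Perm.sign σ : ℤ) : ℝ) *
      ∏ j, ik w (x (eP m (σ (j, false)))) (x (eP m (σ (j, true)))) (k j) := by
  have h := mixed (κ := Fin m) (fun j a => Real.exp (k j * x (eP m a))) (fun j a => Real.exp (-(k j) * x (eP m a)))
  rw [Fintype.card_fin] at h
  rw [IG, ← h, Finset.mul_sum]
  refine Finset.sum_congr rfl fun σ _ => ?_
  simp only [ik]
  rw [Finset.prod_mul_distrib]
  ring

theorem IG_int {m : ℕ} (w : ℝ → ℝ) (x : Fin (2 * m) → ℝ) (hI : ∀ i j, Integrable (ik w (x i) (x j))) :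
    Integrable (IG w x) := by
  have : IG w x = fun k => ∑ σ : Equiv.Perm (Fin m × Bool), ((Equiv.Perm.sign σ : ℤ) : ℝ) *
      ∏ j, ik w (x (eP m (σ (j, false)))) (x (eP m (σ (j, true)))) (k j) := funext fun k => IG_eq w x k
  rw [this]
  refine integrable_finset_sum _ fun σ _ => Integrable.const_mul ?_ _
  exact Integrable.fintype_prod (f := fun j => ik w (x (eP m (σ (j, false)))) (x (eP m (σ (j, true)))))
    fun j => hI _ _

/-- **The formula of de Bruijn.** -/
theorem ppf_int {m : ℕ} (w : ℝ → ℝ) (x : Fin (2 * m) → ℝ) (hI : ∀ i j, Integrable (ik w (x i) (x j))) :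
    ppf ((Matrix.of fun i j => KI w (x i) (x j)).submatrix (eP m) (eP m)) = ∫ k, IG w x k := by
  simp only [IG_eq]
  rw [integral_finset_sum]
  · unfold ppf
    refine Finset.sum_congr rfl fun σ _ => ?_
    rw [integral_const_mul]
    congr 1
    rw [integral_fintype_prod_volume_eq_prod
      (f := fun j => ik w (x (eP m (σ (j, false)))) (x (eP m (σ (j, true)))))]
    rfl
  · intro σ _
    refine Integrable.const_mul ?_ _
    exact Integrable.fintype_prod (f := fun j => ik w (x (eP m (σ (j, false)))) (x (eP m (σ (j, true)))))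
      fun j => hI _ _

/-- **Two densities.** -/
theorem ppf_le {m : ℕ} {w v : ℝ → ℝ} {q : ℝ} (x : Fin (2 * m) → ℝ) (hx : Monotone x) (h0 : ∀ k ≤ 0, w k = 0)
    (hw : ∀ k, 0 ≤ w k) (hwv : ∀ k, w k ≤ v k) (hvw : ∀ k, v k ≤ q * w k) (hq : 0 ≤ q)
    (hI : ∀ i j, Integrable (ik w (x i) (x j))) (hJ : ∀ i j, Integrable (ik v (x i) (x j))) :
    0 ≤ (-1) ^ m * ∫ k, IG w x k ∧ (-1) ^ m * ∫ k, IG w x k ≤ (-1) ^ m * ∫ k, IG v x k ∧
      (-1) ^ m * ∫ k, IG v x k ≤ q ^ m * ((-1) ^ m * ∫ k, IG w x k) := by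
  have key : ∀ k : Fin m → ℝ, (∃ j, k j ≤ 0) ∨ 0 ≤ (-1) ^ m * (2 ^ m * (WM (fun j a => Real.exp (k j * x (eP m a)))
      (fun j a => Real.exp (-(k j) * x (eP m a)))).det) := by
    intro k
    by_cases h : ∃ j, k j ≤ 0
    · exact Or.inl h
    · right
      push Not at h
      have := mul_nonneg (pow_nonneg two_pos.le m : (0 : ℝ) ≤ 2 ^ m) (sign_WM x hx k h)
      refine this.trans_eq ?_
      ring
  have hv0 : ∀ k ≤ 0, v k = 0 := fun k hk => by
    have h1 := hwv k
    have h2 := hvw k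
    rw [h0 k hk] at h1 h2
    rw [mul_zero] at h2
    exact le_antisymm h2 h1
  have hz : ∀ (u : ℝ → ℝ) (hu : ∀ k ≤ 0, u k = 0) (k : Fin m → ℝ), (∃ j, k j ≤ 0) → IG u x k = 0 := by
    intro u hu k ⟨j, hj⟩
    rw [IG, Finset.prod_eq_zero (Finset.mem_univ j) (hu _ hj), zero_mul]
  have hre : ∀ (u : ℝ → ℝ) (k : Fin m → ℝ), (-1) ^ m * IG u x k = (∏ j, u (k j)) *
      ((-1) ^ m * (2 ^ m * (WM (fun j a => Real.exp (k j * x (eP m a)))
      (fun j a => Real.exp (-(k j) * x (eP m a)))).det)) := fun u k => by rw [IG]; ring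
  rw [← integral_const_mul, ← integral_const_mul, ← integral_const_mul]
  refine ⟨integral_nonneg fun k => ?_, integral_mono ((IG_int w x hI).const_mul _) ((IG_int v x hJ).const_mul _)
    fun k => ?_, integral_mono ((IG_int v x hJ).const_mul _) (((IG_int w x hI).const_mul _).const_mul _) fun k => ?_⟩
  · show 0 ≤ (-1) ^ m * IG w x k
    rcases key k with h | h
    · rw [hz w h0 k h, mul_zero]
    · rw [hre]
      exact mul_nonneg (Finset.prod_nonneg fun j _ => hw _) h
  · show (-1) ^ m * IG w x k ≤ (-1) ^ m * IG v x k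
    rcases key k with h | h
    · rw [hz w h0 k h, hz v hv0 k h]
    · rw [hre, hre]
      exact mul_le_mul_of_nonneg_right (Finset.prod_le_prod (fun j _ => hw _) fun j _ => hwv _) h
  · show (-1) ^ m * IG v x k ≤ q ^ m * ((-1) ^ m * IG w x k)
    rcases key k with h | h
    · rw [hz w h0 k h, hz v hv0 k h]
      simp
    · rw [hre, hre, ← mul_assoc (q ^ m)]
      refine mul_le_mul_of_nonneg_right ?_ h
      calc ∏ j, v (k j) ≤ ∏ j, (q * w (k j)) :=
            Finset.prod_le_prod (fun j _ => (hw _).trans (hwv _)) fun j _ => hvw _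
        _ = q ^ m * ∏ j, w (k j) := by
            rw [Finset.prod_mul_distrib, Finset.prod_const, Finset.card_univ, Fintype.card_fin]

theorem KI_anti (w : ℝ → ℝ) (x y : ℝ) : KI w x y = - KI w y x := by
  unfold KI
  rw [← integral_neg]
  congr 1
  funext k
  unfold ik
  ring

/-- **The determinants**, ordered rows. -/
theorem det_le_mono {m : ℕ} {w v : ℝ → ℝ} {q : ℝ} (x : Fin (2 * m) → ℝ) (hx : Monotone x) (h0 : ∀ k ≤ 0, w k = 0)
    (hw : ∀ k, 0 ≤ w k) (hwv : ∀ k, w k ≤ v k) (hvw : ∀ k, v k ≤ q * w k) (hq : 0 ≤ q)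
    (hI : ∀ i j, Integrable (ik w (x i) (x j))) (hJ : ∀ i j, Integrable (ik v (x i) (x j))) :
    (Matrix.of fun i j => KI w (x i) (x j)).det ≤ (Matrix.of fun i j => KI v (x i) (x j)).det ∧
      (Matrix.of fun i j => KI v (x i) (x j)).det ≤ (q ^ m) ^ 2 * (Matrix.of fun i j => KI w (x i) (x j)).det := by
  have h1 := ppf_le x hx h0 hw hwv hvw hq hI hJ
  have hN : ppf (Jst (κ := Fin m)) ^ 2 > 0 := by
    rw [ppf_Jst]
    have : (0 : ℝ) < (Fintype.card (Fin m)).factorial := by exact_mod_cast Nat.factorial_pos _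
    positivity
  have hd : ∀ u : ℝ → ℝ, (∀ i j, Integrable (ik u (x i) (x j))) →
      ((-1) ^ m * ∫ k, IG u x k) ^ 2 = ppf (Jst (κ := Fin m)) ^ 2 * (Matrix.of fun i j => KI u (x i) (x j)).det := by
    intro u hu
    rw [← ppf_int u x hu, mul_pow, ← pow_mul, mul_comm m 2, pow_mul]
    rw [neg_one_sq, one_pow, one_mul, ppf_sq, Matrix.det_submatrix_equiv_self]
    ext a b
    simp only [Matrix.transpose_apply, Matrix.submatrix_apply, Matrix.of_apply, Matrix.neg_apply]
    exact KI_anti u _ _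
  obtain ⟨ha, hb, hc⟩ := h1
  have hsq1 := pow_le_pow_left₀ ha hb 2
  have hsq2 := pow_le_pow_left₀ (ha.trans hb) hc 2
  rw [hd w hI, hd v hJ] at hsq1
  rw [hd v hJ, mul_pow (q ^ m), hd w hI] at hsq2
  constructor
  · exact le_of_mul_le_mul_left hsq1 hN
  · refine le_of_mul_le_mul_left (hsq2.trans_eq ?_) hN
    ring

/-- **The determinants.** -/
theorem det_le {m : ℕ} {w v : ℝ → ℝ} {q : ℝ} (x : Fin (2 * m) → ℝ) (h0 : ∀ k ≤ 0, w k = 0)
    (hw : ∀ k, 0 ≤ w k) (hwv : ∀ k, w k ≤ v k) (hvw : ∀ k, v k ≤ q * w k) (hq : 0 ≤ q)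
    (hI : ∀ i j, Integrable (ik w (x i) (x j))) (hJ : ∀ i j, Integrable (ik v (x i) (x j))) :
    (Matrix.of fun i j => KI w (x i) (x j)).det ≤ (Matrix.of fun i j => KI v (x i) (x j)).det ∧
      (Matrix.of fun i j => KI v (x i) (x j)).det ≤ (q ^ m) ^ 2 * (Matrix.of fun i j => KI w (x i) (x j)).det := by
  have h1 := det_le_mono (fun i => x (Tuple.sort x i)) (Tuple.monotone_sort x) h0 hw hwv hvw hq
    (fun i j => hI _ _) (fun i j => hJ _ _)
  have h2 : ∀ u : ℝ → ℝ, (Matrix.of fun i j => KI u (x (Tuple.sort x i)) (x (Tuple.sort x j))).det =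
      (Matrix.of fun i j => KI u (x i) (x j)).det := fun u => by
    rw [← Matrix.det_submatrix_equiv_self (Tuple.sort x) (Matrix.of fun i j => KI u (x i) (x j))]
    rfl
  rwa [h2 w, h2 v] at h1

end Pool.Agent.TL8
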