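import Pool.Agent.NUQ.Mas2
import Pool.Agent.TL8.Bru

/-!
# The two densities and the two kernels, rows of spread `< 3 pi / 8`
-/

set_option autoImplicit false

namespace Pool.Agent.TL8

open Matrix Finset MeasureTheory

/-- the density of `(2 / 3) tan (4 z / 3)` -/
noncomputable def wT (k : ℝ) : ℝ := if 0 < k then 1 / (4 * Real.sinh (3 * Real.pi / 8 * k)) else 0

/-- the density of `sin 2 z / (cos 2 z + √2 / 2)` -/
noncomputable def wK (k : ℝ) : ℝ :=
  if 0 < k then Real.cosh (Real.pi / 8 * k) / (2 * Real.sinh (Real.pi / 2 * k)) else 0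

theorem wT_zero {k : ℝ} (h : k ≤ 0) : wT k = 0 := if_neg (not_lt.2 h)

theorem wT_nonneg (k : ℝ) : 0 ≤ wT k := by
  unfold wT
  split_ifs with h
  · have h1 : 0 < Real.sinh (3 * Real.pi / 8 * k) := Real.sinh_pos_iff.2 (by positivity)
    positivity
  · exact le_rfl

theorem sinh3 (y : ℝ) : 2 * Real.cosh y * Real.sinh (3 * y) = Real.sinh (4 * y) + Real.sinh (2 * y) := by
  rw [show 4 * y = 3 * y + y by ring, show 2 * y = 3 * y - y by ring, Real.sinh_add, Real.sinh_sub]
  ring

theorem wT_le (k : ℝ) : wT k ≤ wK k := by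
  unfold wT wK
  split_ifs with h
  · set y := Real.pi / 8 * k with hy
    have hy0 : 0 < y := by positivity
    have e1 : 3 * Real.pi / 8 * k = 3 * y := by rw [hy]; ring
    have e2 : Real.pi / 2 * k = 4 * y := by rw [hy]; ring
    rw [e1, e2]
    have h3 : 0 < Real.sinh (3 * y) := Real.sinh_pos_iff.2 (by positivity)
    have h4 : 0 < Real.sinh (4 * y) := Real.sinh_pos_iff.2 (by positivity)
    have h2 : 0 < Real.sinh (2 * y) := Real.sinh_pos_iff.2 (by positivity)
    rw [div_le_div_iff₀ (by positivity) (by positivity)]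
    have := sinh3 y
    linarith
  · exact le_rfl

theorem wK_le (k : ℝ) : wK k ≤ 3 / 2 * wT k := by
  unfold wT wK
  split_ifs with h
  · set y := Real.pi / 8 * k with hy
    have hy0 : 0 < y := by positivity
    have e1 : 3 * Real.pi / 8 * k = 3 * y := by rw [hy]; ring
    have e2 : Real.pi / 2 * k = 4 * y := by rw [hy]; ring
    rw [e1, e2]
    have h3 : 0 < Real.sinh (3 * y) := Real.sinh_pos_iff.2 (by positivity)
    have h4 : 0 < Real.sinh (4 * y) := Real.sinh_pos_iff.2 (by positivity)
    have h2 : 0 < Real.sinh (2 * y) := Real.sinh_pos_iff.2 (by positivity)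
    have h5 : Real.sinh (4 * y) = 2 * Real.sinh (2 * y) * Real.cosh (2 * y) := by
      rw [← Real.sinh_two_mul]; congr 1; ring
    have h6 := Real.one_le_cosh (2 * y)
    have h7 : 2 * Real.sinh (2 * y) ≤ Real.sinh (4 * y) := by
      rw [h5]
      nlinarith
    rw [show 3 / 2 * (1 / (4 * Real.sinh (3 * y))) = 3 / (8 * Real.sinh (3 * y)) by
      field_simp; norm_num, div_le_div_iff₀ (by positivity) (by positivity)]
    have := sinh3 y
    nlinarith
  · simp

theorem two_sinh (k x y : ℝ) : Real.exp (k * x) * Real.exp (-k * y) - Real.exp (-k * x) * Real.exp (k * y) =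
    2 * Real.sinh ((x - y) * k) := by
  rw [← Real.exp_add, ← Real.exp_add, Real.sinh_eq, show k * x + -k * y = (x - y) * k by ring,
    show -k * x + k * y = -((x - y) * k) by ring]
  ring

theorem ik_T (x y : ℝ) : ik wT x y = (Set.Ioi 0).indicator fun k : ℝ =>
    1 / 2 * (Real.sinh ((x - y) * k) * Real.cos (0 * k) / Real.sinh (3 * Real.pi / 8 * k)) := by
  funext k
  unfold ik wT
  rw [two_sinh]
  by_cases h : 0 < k
  · rw [if_pos h, Set.indicator_of_mem (by exact h), zero_mul, Real.cos_zero]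
    have h1 : 0 < Real.sinh (3 * Real.pi / 8 * k) := Real.sinh_pos_iff.2 (by positivity)
    field_simp
    norm_num
  · rw [if_neg h, Set.indicator_of_notMem (by exact h), zero_mul]

theorem ik_K (x y : ℝ) : ik wK x y = (Set.Ioi 0).indicator fun k : ℝ =>
    1 / 2 * (Real.sinh ((x - y + Real.pi / 8) * k) * Real.cos (0 * k) / Real.sinh (Real.pi / 2 * k)) +
    1 / 2 * (Real.sinh ((x - y - Real.pi / 8) * k) * Real.cos (0 * k) / Real.sinh (Real.pi / 2 * k)) := by
  funext k
  unfold ik wK
  rw [two_sinh]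
  by_cases h : 0 < k
  · rw [if_pos h, Set.indicator_of_mem (by exact h), zero_mul, Real.cos_zero]
    have h1 : 0 < Real.sinh (Real.pi / 2 * k) := Real.sinh_pos_iff.2 (by positivity)
    have h2 : Real.sinh ((x - y + Real.pi / 8) * k) + Real.sinh ((x - y - Real.pi / 8) * k) =
        2 * Real.sinh ((x - y) * k) * Real.cosh (Real.pi / 8 * k) := by
      rw [show (x - y + Real.pi / 8) * k = (x - y) * k + Real.pi / 8 * k by ring,
        show (x - y - Real.pi / 8) * k = (x - y) * k - Real.pi / 8 * k by ring, Real.sinh_add, Real.sinh_sub]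
      ring
    linear_combination (-(1 / 2) / Real.sinh (Real.pi / 2 * k)) * h2
  · rw [if_neg h, Set.indicator_of_notMem (by exact h), zero_mul]

theorem int_T {x y : ℝ} (h : |x - y| < 3 * Real.pi / 8) : Integrable (ik wT x y) := by
  rw [ik_T, integrable_indicator_iff measurableSet_Ioi]
  exact (Pool.Agent.NUQ.integrableOn_re (b := 0) (by positivity) h).const_mul _

theorem abs_lt_add {x y : ℝ} (h : |x - y| < 3 * Real.pi / 8) :
    |x - y + Real.pi / 8| < Real.pi / 2 ∧ |x - y - Real.pi / 8| < Real.pi / 2 := by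
  have hp := Real.pi_pos
  rw [abs_lt] at h ⊢
  rw [abs_lt]
  exact ⟨⟨by linarith [h.1], by linarith [h.2]⟩, ⟨by linarith [h.1], by linarith [h.2]⟩⟩

theorem int_K {x y : ℝ} (h : |x - y| < 3 * Real.pi / 8) : Integrable (ik wK x y) := by
  rw [ik_K, integrable_indicator_iff measurableSet_Ioi]
  obtain ⟨h1, h2⟩ := abs_lt_add h
  exact ((Pool.Agent.NUQ.integrableOn_re (b := 0) (by positivity) h1).const_mul _).add
    ((Pool.Agent.NUQ.integrableOn_re (b := 0) (by positivity) h2).const_mul _)

theorem half_tan {u : ℝ} (h : Real.cos u ≠ 0) : Real.sin (2 * u) / (Real.cos (2 * u) + Real.cosh 0) = Real.tan u := by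
  rw [Real.cosh_zero, Real.cos_two_mul, Real.sin_two_mul, Real.tan_eq_sin_div_cos]
  field_simp
  ring

theorem KI_T {x y : ℝ} (h : |x - y| < 3 * Real.pi / 8) : KI wT x y = 2 / 3 * Real.tan (4 / 3 * (x - y)) := by
  have hp := Real.pi_pos
  unfold KI
  rw [ik_T, integral_indicator measurableSet_Ioi, integral_const_mul,
    (Pool.Agent.NUQ.int_both (b := 0) (by positivity) h).1]
  have e1 : Real.pi * (x - y) / (3 * Real.pi / 8) = 2 * (4 / 3 * (x - y)) := by field_simp; ring
  have e2 : Real.pi * 0 / (3 * Real.pi / 8) = 0 := by simp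
  have e3 : Real.pi / (2 * (3 * Real.pi / 8)) = 4 / 3 := by field_simp; norm_num
  rw [e1, e2, e3, half_tan]
  · ring
  · apply ne_of_gt
    rw [abs_lt] at h
    exact Real.cos_pos_of_mem_Ioo ⟨by linarith [h.1], by linarith [h.2]⟩

theorem KI_K {x y : ℝ} (h : |x - y| < 3 * Real.pi / 8) :
    KI wK x y = Real.sin (2 * (x - y)) / (Real.cos (2 * (x - y)) + √2 / 2) := by
  have hp := Real.pi_pos
  obtain ⟨h1, h2⟩ := abs_lt_add h
  unfold KI
  rw [ik_K, integral_indicator measurableSet_Ioi, integral_add, integral_const_mul, integral_const_mul,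
    (Pool.Agent.NUQ.int_both (b := 0) (by positivity) h1).1, (Pool.Agent.NUQ.int_both (b := 0) (by positivity) h2).1]
  · have e1 : ∀ u : ℝ, Real.pi * u / (Real.pi / 2) = 2 * u := fun u => by field_simp
    have e3 : Real.pi / (2 * (Real.pi / 2)) = 1 := by field_simp
    rw [e1, e1, e1, e3, mul_zero]
    have c1 : 0 < Real.cos (x - y + Real.pi / 8) := by
      rw [abs_lt] at h1
      exact Real.cos_pos_of_mem_Ioo ⟨by linarith [h1.1], by linarith [h1.2]⟩
    have c2 : 0 < Real.cos (x - y - Real.pi / 8) := by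
      rw [abs_lt] at h2
      exact Real.cos_pos_of_mem_Ioo ⟨by linarith [h2.1], by linarith [h2.2]⟩
    rw [half_tan c1.ne', half_tan c2.ne', Real.tan_eq_sin_div_cos, Real.tan_eq_sin_div_cos]
    set a := x - y + Real.pi / 8 with ha
    set b := x - y - Real.pi / 8 with hb
    have e4 : Real.sin (2 * (x - y)) = Real.sin a * Real.cos b + Real.cos a * Real.sin b := by
      rw [← Real.sin_add]; congr 1; rw [ha, hb]; ring
    have e5 : Real.cos (2 * (x - y)) + √2 / 2 = 2 * (Real.cos a * Real.cos b) := by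
      rw [← Real.cos_pi_div_four, show 2 * (x - y) = a + b by rw [ha, hb]; ring,
        show Real.pi / 4 = a - b by rw [ha, hb]; ring, Real.cos_add a b, Real.cos_sub a b]
      ring
    rw [e4, e5]
    field_simp
  · exact (Pool.Agent.NUQ.integrableOn_re (b := 0) (by positivity) h1).const_mul _
  · exact (Pool.Agent.NUQ.integrableOn_re (b := 0) (by positivity) h2).const_mul _

/-- **Real rows of spread `< 3 pi / 8`.** -/
theorem det_le_rows {m : ℕ} (x : Fin (2 * m) → ℝ) (hx : ∀ i j, |x i - x j| < 3 * Real.pi / 8) :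
    (Matrix.of fun i j => 2 / 3 * Real.tan (4 / 3 * (x i - x j))).det ≤
      (Matrix.of fun i j => Real.sin (2 * (x i - x j)) / (Real.cos (2 * (x i - x j)) + √2 / 2)).det ∧
    (Matrix.of fun i j => Real.sin (2 * (x i - x j)) / (Real.cos (2 * (x i - x j)) + √2 / 2)).det ≤
      (9 / 4) ^ m * (Matrix.of fun i j => 2 / 3 * Real.tan (4 / 3 * (x i - x j))).det := by
  have h := det_le x (fun k hk => wT_zero hk) wT_nonneg wT_le wK_le (by norm_num)
    (fun i j => int_T (hx i j)) (fun i j => int_K (hx i j))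
  simp only [KI_T (hx _ _), KI_K (hx _ _)] at h
  rw [← pow_mul, mul_comm m 2, pow_mul] at h
  norm_num at h ⊢
  exact h

end Pool.Agent.TL8
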