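import Mathlib

/-!
# Pfaffians as sums over permutations
-/

set_option autoImplicit false

namespace Pool.Agent.TL8

open Matrix Finset Filter Topology

variable {κ : Type*} [Fintype κ] [DecidableEq κ]

/-- `2 ^ m m!` times the Pfaffian -/
noncomputable def ppf (M : Matrix (κ × Bool) (κ × Bool) ℝ) : ℝ :=
  ∑ σ : Equiv.Perm (κ × Bool), ((Equiv.Perm.sign σ : ℤ) : ℝ) * ∏ j, M (σ (j, false)) (σ (j, true))

theorem prod_pb (f : κ × Bool → ℝ) : ∏ i, f i = ∏ j, (f (j, false) * f (j, true)) := by
  rw [Fintype.prod_prod_type]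
  refine Finset.prod_congr rfl fun j _ => ?_
  rw [Fintype.prod_bool, mul_comm]

/-- functions on the pairs -/
def eF : (κ × Bool → κ × Bool) ≃ (κ → (κ × Bool) × (κ × Bool)) where
  toFun g j := (g (j, false), g (j, true))
  invFun F i := if i.2 then (F i.1).2 else (F i.1).1
  left_inv g := by
    funext ⟨j, b⟩
    cases b <;> simp
  right_inv F := by
    funext j
    simp

theorem ppf_conj_sum (A M : Matrix (κ × Bool) (κ × Bool) ℝ) :
    ppf (A * M * Aᵀ) = ∑ g : κ × Bool → κ × Bool,
      (∏ j, M (g (j, false)) (g (j, true))) * (A.submatrix id g).det := by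
  have h1 : ∀ a b, (A * M * Aᵀ) a b =
      ∑ p : (κ × Bool) × (κ × Bool), A a p.1 * M p.1 p.2 * A b p.2 := by
    intro a b
    have h0 : ∑ p : (κ × Bool) × (κ × Bool), A a p.1 * M p.1 p.2 * A b p.2 =
        ∑ q : κ × Bool, ∑ p : κ × Bool, A a p * M p q * A b q := by
      rw [Fintype.sum_prod_type, Finset.sum_comm]
    rw [Matrix.mul_apply, h0]
    refine Finset.sum_congr rfl fun q _ => ?_
    rw [Matrix.mul_apply, Finset.sum_mul]
    refine Finset.sum_congr rfl fun p _ => ?_
    rw [Matrix.transpose_apply]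
  have h2 : ∀ σ : Equiv.Perm (κ × Bool), ∏ j, ∑ p : (κ × Bool) × (κ × Bool),
      A (σ (j, false)) p.1 * M p.1 p.2 * A (σ (j, true)) p.2 =
      ∑ g : κ × Bool → κ × Bool, (∏ j, M (g (j, false)) (g (j, true))) * ∏ i, A (σ i) (g i) := by
    intro σ
    rw [Finset.prod_univ_sum, Fintype.piFinset_univ, ← Equiv.sum_comp eF]
    refine Finset.sum_congr rfl fun g _ => ?_
    rw [prod_pb, ← Finset.prod_mul_distrib]
    refine Finset.prod_congr rfl fun j _ => ?_
    simp only [eF, Equiv.coe_fn_mk]
    ring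
  unfold ppf
  simp only [h1, h2, Finset.mul_sum]
  rw [Finset.sum_comm]
  refine Finset.sum_congr rfl fun g _ => ?_
  rw [Matrix.det_apply', Finset.mul_sum]
  refine Finset.sum_congr rfl fun σ _ => ?_
  simp only [Matrix.submatrix_apply, id]
  ring

theorem ppf_conj (A M : Matrix (κ × Bool) (κ × Bool) ℝ) :
    ppf (A * M * Aᵀ) = A.det * ppf M := by
  rw [ppf_conj_sum]
  calc _ = ∑ g : κ × Bool → κ × Bool with Function.Bijective g,
        (∏ j, M (g (j, false)) (g (j, true))) * (A.submatrix id g).det := by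
        refine (Finset.sum_subset (Finset.filter_subset _ _) fun g _ hg => ?_).symm
        have hg' : ¬ Function.Injective g := fun h => by
          rw [Finset.mem_filter] at hg
          exact hg ⟨Finset.mem_univ _, Finite.injective_iff_bijective.1 h⟩
        rw [Function.Injective] at hg'
        simp only [not_forall] at hg'
        obtain ⟨i, j, hij, hne⟩ := hg'
        rw [Matrix.det_zero_of_column_eq hne, mul_zero]
        intro k
        simp only [Matrix.submatrix_apply, hij]
    _ = ∑ τ : Equiv.Perm (κ × Bool),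
        (∏ j, M (τ (j, false)) (τ (j, true))) * (A.submatrix id τ).det :=
        Finset.sum_bij (fun p h ↦ Equiv.ofBijective p (Finset.mem_filter.1 h).2) (fun _ _ ↦ Finset.mem_univ _)
          (fun _ _ _ _ h ↦ by injection h)
          (fun b _ ↦ ⟨b, Finset.mem_filter.2 ⟨Finset.mem_univ _, b.bijective⟩, Equiv.coe_fn_injective rfl⟩)
          fun _ _ ↦ rfl
    _ = A.det * ppf M := by
        unfold ppf
        rw [Finset.mul_sum]
        refine Finset.sum_congr rfl fun τ _ => ?_
        rw [Matrix.det_permute']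
        ring

/-! ### mixed products -/

/-- the matrix of the columns `u j, v j` -/
def WM (u v : κ → κ × Bool → ℝ) : Matrix (κ × Bool) (κ × Bool) ℝ :=
  Matrix.of fun a i => if i.2 then v i.1 a else u i.1 a

/-- exchange in the pairs with `β j = true` -/
def fl (β : κ → Bool) : Equiv.Perm (κ × Bool) :=
  Equiv.prodCongrRight fun j => if β j then Equiv.swap false true else 1

theorem fl_f (β : κ → Bool) (j : κ) : fl β (j, false) = (j, β j) := by
  unfold fl
  cases h : β j <;> simp [h]

theorem fl_t (β : κ → Bool) (j : κ) : fl β (j, true) = (j, ! β j) := by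
  unfold fl
  cases h : β j <;> simp [h]

theorem sign_fl (β : κ → Bool) :
    (((Equiv.Perm.sign (fl β) : ℤˣ) : ℤ) : ℝ) = ∏ j, (if β j then (-1 : ℝ) else 1) := by
  unfold fl
  rw [Equiv.Perm.sign_prodCongrRight]
  push_cast
  refine Finset.prod_congr rfl fun j _ => ?_
  cases h : β j <;> simp

theorem sgn_mul_self (σ : Equiv.Perm (κ × Bool)) :
    (((Equiv.Perm.sign σ : ℤˣ) : ℤ) : ℝ) * (((Equiv.Perm.sign σ : ℤˣ) : ℤ) : ℝ) = 1 := by
  rcases Int.units_eq_one_or (Equiv.Perm.sign σ) with h | h <;> simp [h]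

theorem mixed (u v : κ → κ × Bool → ℝ) :
    ∑ σ : Equiv.Perm (κ × Bool), ((Equiv.Perm.sign σ : ℤ) : ℝ) *
      ∏ j, (u j (σ (j, false)) * v j (σ (j, true)) - v j (σ (j, false)) * u j (σ (j, true))) =
      2 ^ Fintype.card κ * (WM u v).det := by
  have h1 : ∀ σ : Equiv.Perm (κ × Bool),
      ∏ j, (u j (σ (j, false)) * v j (σ (j, true)) - v j (σ (j, false)) * u j (σ (j, true))) =
      ∑ β : κ → Bool, (((Equiv.Perm.sign (fl β) : ℤˣ) : ℤ) : ℝ) * ∏ i, WM u v ((σ * fl β) i) i := by
    intro σ
    have h2 : ∀ j, u j (σ (j, false)) * v j (σ (j, true)) - v j (σ (j, false)) * u j (σ (j, true)) =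
        ∑ b : Bool, (if b then (-1 : ℝ) else 1) * (u j (σ (j, b)) * v j (σ (j, ! b))) := by
      intro j
      rw [Fintype.sum_bool]
      simp
      ring
    simp only [h2]
    rw [Finset.prod_univ_sum, Fintype.piFinset_univ]
    refine Finset.sum_congr rfl fun β _ => ?_
    rw [sign_fl, prod_pb, ← Finset.prod_mul_distrib]
    refine Finset.prod_congr rfl fun j _ => ?_
    rw [Equiv.Perm.mul_apply, Equiv.Perm.mul_apply, fl_f, fl_t]
    simp [WM]
  simp only [h1, Finset.mul_sum]
  rw [Finset.sum_comm]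
  have h3 : ∀ β : κ → Bool, ∑ σ : Equiv.Perm (κ × Bool), ((Equiv.Perm.sign σ : ℤ) : ℝ) *
      ((((Equiv.Perm.sign (fl β) : ℤˣ) : ℤ) : ℝ) * ∏ i, WM u v ((σ * fl β) i) i) = (WM u v).det := by
    intro β
    rw [Matrix.det_apply', ← Equiv.sum_comp (Equiv.mulRight (fl β))
      (fun σ : Equiv.Perm (κ × Bool) => ((Equiv.Perm.sign σ : ℤ) : ℝ) * ∏ i, WM u v (σ i) i)]
    refine Finset.sum_congr rfl fun σ _ => ?_
    rw [Equiv.coe_mulRight, Equiv.Perm.sign_mul]
    push_cast
    ring
  rw [Finset.sum_congr rfl fun β _ => h3 β]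
  rw [Finset.sum_const, nsmul_eq_mul]
  congr 1
  rw [Finset.card_univ, Fintype.card_fun, Fintype.card_bool]
  push_cast
  rfl

/-! ### the standard matrix -/

/-- the standard antisymmetric matrix -/
def Jst : Matrix (κ × Bool) (κ × Bool) ℝ := Matrix.of fun a b =>
  if a.1 = b.1 then (if a.2 = false ∧ b.2 = true then 1 else if a.2 = true ∧ b.2 = false then -1 else 0) else 0

theorem Jst_T : (Jst (κ := κ))ᵀ = -Jst := by
  ext ⟨i, a⟩ ⟨j, b⟩
  simp only [Jst, Matrix.transpose_apply, Matrix.of_apply, Matrix.neg_apply]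
  by_cases h : i = j
  · subst h
    cases a <;> cases b <;> simp
  · rw [if_neg h, if_neg (Ne.symm h), neg_zero]

theorem Jst_det : (Jst (κ := κ)).det = 1 := by
  have h1 : (Jst (κ := κ)) = (Matrix.blockDiagonal fun _ : κ =>
      (Matrix.of fun a b : Bool => if a = false ∧ b = true then (1 : ℝ) else if a = true ∧ b = false then -1 else 0)).submatrix
        Prod.swap Prod.swap := by
    ext ⟨i, a⟩ ⟨j, b⟩
    simp [Jst, Matrix.blockDiagonal_apply]
  rw [h1]
  have h2 := Matrix.det_submatrix_equiv_self (Equiv.prodComm κ Bool) (Matrix.blockDiagonal fun _ : κ =>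
      (Matrix.of fun a b : Bool => if a = false ∧ b = true then (1 : ℝ) else if a = true ∧ b = false then -1 else 0))
  rw [show (Prod.swap : κ × Bool → Bool × κ) = (Equiv.prodComm κ Bool) from rfl, h2, Matrix.det_blockDiagonal]
  refine Finset.prod_eq_one fun j _ => ?_
  rw [← Matrix.det_submatrix_equiv_self finTwoEquiv, Matrix.det_fin_two]
  simp [finTwoEquiv]

theorem Jst_sum (a b : κ × Bool) : Jst a b = ∑ k : κ,
    ((if a = (k, false) then (1 : ℝ) else 0) * (if b = (k, true) then 1 else 0) -
      (if a = (k, true) then (1 : ℝ) else 0) * (if b = (k, false) then 1 else 0)) := by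
  obtain ⟨i, a⟩ := a
  obtain ⟨j, b⟩ := b
  simp only [Jst, Matrix.of_apply, Prod.mk.injEq]
  by_cases h : i = j
  · subst h
    rw [Finset.sum_eq_single i]
    · cases a <;> cases b <;> simp
    · intro k _ hk
      simp [Ne.symm hk]
    · intro h
      exact absurd (Finset.mem_univ _) h
  · rw [if_neg h]
    symm
    refine Finset.sum_eq_zero fun k _ => ?_
    by_cases h1 : i = k
    · have h2 : j ≠ k := fun h2 => h (h1.trans h2.symm)
      simp [h2]
    · simp [h1]

theorem ppf_Jst : ppf (Jst (κ := κ)) = 2 ^ Fintype.card κ * (Fintype.card κ).factorial := by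
  unfold ppf
  simp only [Jst_sum, Finset.prod_univ_sum, Fintype.piFinset_univ, Finset.mul_sum]
  rw [Finset.sum_comm]
  have h1 : ∀ g : κ → κ, ∑ σ : Equiv.Perm (κ × Bool), ((Equiv.Perm.sign σ : ℤ) : ℝ) *
      ∏ j, ((if σ (j, false) = (g j, false) then (1 : ℝ) else 0) * (if σ (j, true) = (g j, true) then 1 else 0) -
        (if σ (j, false) = (g j, true) then (1 : ℝ) else 0) * (if σ (j, true) = (g j, false) then 1 else 0)) =
      if Function.Bijective g then 2 ^ Fintype.card κ else 0 := by
    intro g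
    rw [mixed (fun j a => if a = (g j, false) then (1 : ℝ) else 0) (fun j a => if a = (g j, true) then (1 : ℝ) else 0)]
    split_ifs with hg
    · have h2 : WM (fun j a => if a = (g j, false) then (1 : ℝ) else 0) (fun j a => if a = (g j, true) then (1 : ℝ) else 0) =
          (1 : Matrix (κ × Bool) (κ × Bool) ℝ).submatrix id (Equiv.prodCongrLeft fun _ : Bool => Equiv.ofBijective g hg) := by
        ext a ⟨j, b⟩
        cases b <;> simp [WM, Matrix.one_apply]
      rw [h2, Matrix.det_permute', Equiv.Perm.sign_prodCongrLeft, Fintype.prod_bool, Matrix.det_one, mul_one]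
      rcases Int.units_eq_one_or (Equiv.Perm.sign (Equiv.ofBijective g hg)) with h | h <;> simp [h]
    · have hg' : ¬ Function.Injective g := fun h => hg (Finite.injective_iff_bijective.1 h)
      rw [Function.Injective] at hg'
      simp only [not_forall] at hg'
      obtain ⟨i, j, hij, hne⟩ := hg'
      rw [Matrix.det_zero_of_column_eq (i := (i, false)) (j := (j, false)) (by simpa using hne), mul_zero]
      intro k
      simp [WM, hij]
  rw [Finset.sum_congr rfl fun g _ => h1 g]
  rw [← Finset.sum_filter, Finset.sum_const, nsmul_eq_mul, mul_comm]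
  congr 1
  have h3 : (Finset.univ.filter fun g : κ → κ => Function.Bijective g).card = Fintype.card (Equiv.Perm κ) := by
    rw [← Fintype.card_subtype]
    exact Fintype.card_congr ⟨fun f => Equiv.ofBijective f.1 f.2, fun e => ⟨e, e.bijective⟩,
      fun f => by ext; rfl, fun e => by ext; rfl⟩
  rw [h3, Fintype.card_perm]

end Pool.Agent.TL8
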