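import Mathlib

/-!
# The determinant of Schur
-/

set_option autoImplicit false

namespace Pool.Agent.TL8

open Matrix Finset

/-- two first indices and the rest -/
def e2 (n : ℕ) : Fin 2 ⊕ Fin n ≃ Fin (n + 2) := finSumFinEquiv.trans (finCongr (add_comm 2 n))

theorem e2_zero {n : ℕ} : e2 n (Sum.inl 0) = 0 := by
  apply Fin.ext
  simp [e2]

theorem e2_one {n : ℕ} : e2 n (Sum.inl 1) = (0 : Fin (n + 1)).succ := by
  apply Fin.ext
  simp [e2]

theorem e2_inr {n : ℕ} (i : Fin n) : e2 n (Sum.inr i) = i.succ.succ := by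
  apply Fin.ext
  simp [e2]
  try ring

theorem det_two_step {K : Type*} [Field K] {n : ℕ} (S : Fin (n + 2) → Fin (n + 2) → K)
    (ha : ∀ i j, S i j = - S j i) (hd : ∀ i, S i i = 0)
    (h4 : ∀ a b x y, S a b * S x y - S a x * S b y + S a y * S b x =
      S a b * S a x * S a y * S b x * S b y * S x y) (h0 : S 0 (0 : Fin (n + 1)).succ ≠ 0) :
    (Matrix.of S).det = S 0 (0 : Fin (n + 1)).succ ^ 2 *
      (∏ i : Fin n, (S 0 i.succ.succ * S (0 : Fin (n + 1)).succ i.succ.succ)) ^ 2 *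
        (Matrix.of fun i j : Fin n => S i.succ.succ j.succ.succ).det := by
  set s := S 0 (0 : Fin (n + 1)).succ with hs
  set u : Fin (n + 2) := (0 : Fin (n + 1)).succ with hu
  set A : Matrix (Fin 2) (Fin 2) K := !![0, s; -s, 0] with hA
  set B : Matrix (Fin 2) (Fin n) K := Matrix.of fun a j => if a = 0 then S 0 j.succ.succ else S u j.succ.succ with hB
  set C : Matrix (Fin n) (Fin 2) K := Matrix.of fun i a => if a = 0 then S i.succ.succ 0 else S i.succ.succ u with hC
  set D : Matrix (Fin n) (Fin n) K := Matrix.of fun i j => S i.succ.succ j.succ.succ with hD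
  have h1 : (Matrix.of S).submatrix (e2 n) (e2 n) = Matrix.fromBlocks A B C D := by
    ext i j
    rcases i with i | i <;> rcases j with j | j
    · fin_cases i <;> fin_cases j
      · simp [hA, e2_zero, hd]
      · simp [hA, e2_zero, e2_one, hs, hu]
      · simp [hA, e2_zero, e2_one, hs, hu, ha 1 0]
      · simp [hA, e2_one, hd]
    · fin_cases i
      · simp [hB, e2_zero, e2_inr]
      · simp [hB, e2_one, e2_inr, hu]
    · fin_cases j
      · simp [hC, e2_zero, e2_inr]
      · simp [hC, e2_one, e2_inr, hu]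
    · simp [hD, e2_inr]
  have hAd : A.det = s ^ 2 := by
    rw [hA, Matrix.det_fin_two_of]
    ring
  have hinv : A * !![0, -s⁻¹; s⁻¹, 0] = 1 := by
    rw [hA]
    ext i j
    fin_cases i <;> fin_cases j <;> simp [Matrix.mul_apply, Fin.sum_univ_two, h0]
  have hinv2 : !![0, -s⁻¹; s⁻¹, 0] * A = 1 := by
    rw [hA]
    ext i j
    fin_cases i <;> fin_cases j <;> simp [Matrix.mul_apply, Fin.sum_univ_two, h0]
  letI : Invertible A := ⟨!![0, -s⁻¹; s⁻¹, 0], hinv2, hinv⟩
  have hA' : ⅟A = !![0, -s⁻¹; s⁻¹, 0] := rfl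
  rw [← Matrix.det_submatrix_equiv_self (e2 n), h1, Matrix.det_fromBlocks₁₁, hAd, hA']
  have h2 : D - C * !![0, -s⁻¹; s⁻¹, 0] * B = Matrix.of fun i j : Fin n =>
      (S 0 i.succ.succ * S u i.succ.succ) * (Matrix.of fun i j : Fin n =>
        (S 0 j.succ.succ * S u j.succ.succ) * D i j) i j := by
    ext i j
    have h5 := h4 0 u i.succ.succ j.succ.succ
    rw [← hs] at h5
    have h6 : (D - C * !![0, -s⁻¹; s⁻¹, 0] * B) i j = D i j -
        (S i.succ.succ u * s⁻¹ * S 0 j.succ.succ + S i.succ.succ 0 * (-s⁻¹) * S u j.succ.succ) := by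
      simp [Matrix.mul_apply, Fin.sum_univ_two, hB, hC]
    rw [h6, ha i.succ.succ u, ha i.succ.succ 0]
    simp only [Matrix.of_apply, hD]
    field_simp
    linear_combination h5
  rw [h2, Matrix.det_mul_column, Matrix.det_mul_row]
  ring

/-- **The determinant of Schur.** -/
theorem det_schur {K : Type*} [Field K] : ∀ (m : ℕ) (S : Fin (2 * m) → Fin (2 * m) → K),
    (∀ i j, S i j = - S j i) → (∀ i, S i i = 0) →
    (∀ a b x y, S a b * S x y - S a x * S b y + S a y * S b x =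
      S a b * S a x * S a y * S b x * S b y * S x y) → (∀ i j, i ≠ j → S i j ≠ 0) →
    (Matrix.of S).det = (∏ i, ∏ j ∈ Ioi i, S i j) ^ 2 := by
  intro m
  induction m with
  | zero =>
    intro S _ _ _ _
    simp
  | succ m ih =>
    intro S ha hd h4 h0
    have h1 := det_two_step (n := 2 * m) S ha hd h4 (h0 _ _ (Fin.succ_ne_zero _).symm)
    have h2 := ih (fun i j => S i.succ.succ j.succ.succ) (fun i j => ha _ _) (fun i => hd _)
      (fun a b x y => h4 _ _ _ _) (fun i j hij => h0 _ _ fun h => hij (Fin.succ_injective _ (Fin.succ_injective _ h)))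
    have h3 : (∏ i : Fin (2 * m + 1 + 1), ∏ j ∈ Ioi i, S i j) = (S 0 (0 : Fin (2 * m + 1)).succ *
        ∏ i : Fin (2 * m), S 0 i.succ.succ) * ((∏ i : Fin (2 * m), S (0 : Fin (2 * m + 1)).succ i.succ.succ) *
          ∏ i : Fin (2 * m), ∏ j ∈ Ioi i, S i.succ.succ j.succ.succ) := by
      rw [Fin.prod_univ_succ, Fin.prod_Ioi_zero, Fin.prod_univ_succ]
      congr 1
      rw [Fin.prod_univ_succ, Fin.prod_Ioi_succ, Fin.prod_Ioi_zero]
      congr 1
      refine Finset.prod_congr rfl fun i _ => ?_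
      rw [Fin.prod_Ioi_succ, Fin.prod_Ioi_succ]
    show (Matrix.of S).det = (∏ i : Fin (2 * m + 1 + 1), ∏ j ∈ Ioi i, S i j) ^ 2
    rw [h3]
    refine h1.trans ?_
    rw [h2, Finset.prod_mul_distrib]
    ring

theorem tan_add_mul {p q : ℝ} (hp : Real.cos p ≠ 0) (hq : Real.cos q ≠ 0) (hpq : Real.cos (p + q) ≠ 0) :
    Real.tan (p + q) = (Real.tan p + Real.tan q) / (1 - Real.tan p * Real.tan q) := by
  rw [Real.tan_eq_sin_div_cos p, Real.tan_eq_sin_div_cos q, Real.tan_eq_sin_div_cos (p + q)]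
  have h1 : (1 : ℝ) - Real.sin p / Real.cos p * (Real.sin q / Real.cos q) ≠ 0 := by
    have h2 : (1 : ℝ) - Real.sin p / Real.cos p * (Real.sin q / Real.cos q) =
        Real.cos (p + q) / (Real.cos p * Real.cos q) := by
      rw [Real.cos_add]
      field_simp
    rw [h2]
    exact div_ne_zero hpq (mul_ne_zero hp hq)
  rw [div_eq_div_iff hpq h1, Real.sin_add, Real.cos_add]
  field_simp
  try ring

theorem tan_four {P Q R A B C : ℝ} (hA : A = (P + Q) / (1 - P * Q)) (hB : B = (Q + R) / (1 - Q * R))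
    (hC : C = (A + R) / (1 - A * R)) (h1 : 1 - P * Q ≠ 0) (h2 : 1 - Q * R ≠ 0) (h3 : 1 - A * R ≠ 0) :
    P * R - A * B + C * Q = P * A * C * Q * B * R := by
  have h4 : 1 - P * Q - P * R - Q * R ≠ 0 := by
    intro h
    apply h3
    rw [hA, div_mul_eq_mul_div, one_sub_div h1, div_eq_zero_iff]
    left
    linarith
  have hC' : C = (P + Q + R - P * Q * R) / (1 - P * Q - P * R - Q * R) := by
    rw [hC, div_eq_div_iff h3 h4, hA]
    field_simp
    ring
  rw [hC', hA, hB]
  obtain ⟨a, ha⟩ : ∃ a, a = 1 - P * Q := ⟨_, rfl⟩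
  obtain ⟨b, hb⟩ : ∃ b, b = 1 - Q * R := ⟨_, rfl⟩
  obtain ⟨d, hd⟩ : ∃ d, d = 1 - P * Q - P * R - Q * R := ⟨_, rfl⟩
  rw [← ha] at h1
  rw [← hb] at h2
  rw [← hd] at h4
  rw [← hd, ← ha, ← hb]
  field_simp
  rw [ha, hb, hd]
  ring

theorem one_sub_tan_ne {p q : ℝ} (hp : Real.cos p ≠ 0) (hq : Real.cos q ≠ 0) (hpq : Real.cos (p + q) ≠ 0) :
    1 - Real.tan p * Real.tan q ≠ 0 := by
  have h2 : 1 - Real.tan p * Real.tan q = Real.cos (p + q) / (Real.cos p * Real.cos q) := by
    rw [Real.tan_eq_sin_div_cos, Real.tan_eq_sin_div_cos, Real.cos_add]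
    field_simp
  rw [h2]
  exact div_ne_zero hpq (mul_ne_zero hp hq)

/-- **Tangents.** -/
theorem det_tan (m : ℕ) (x : Fin (2 * m) → ℝ) (hc : ∀ i j, Real.cos (x i - x j) ≠ 0)
    (hs : ∀ i j, i ≠ j → Real.sin (x i - x j) ≠ 0) :
    (Matrix.of fun i j => Real.tan (x i - x j)).det = (∏ i, ∏ j ∈ Ioi i, Real.tan (x i - x j)) ^ 2 := by
  apply det_schur m (fun i j => Real.tan (x i - x j))
  · intro i j
    rw [← Real.tan_neg]
    congr 1
    ring
  · intro i
    simp
  · intro a b y z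
    have e1 : x a - x y = (x a - x b) + (x b - x y) := by ring
    have e2 : x b - x z = (x b - x y) + (x y - x z) := by ring
    have e3 : x a - x z = (x a - x y) + (x y - x z) := by ring
    exact tan_four (by rw [e1]; exact tan_add_mul (hc _ _) (hc _ _) (by rw [← e1]; exact hc _ _))
      (by rw [e2]; exact tan_add_mul (hc _ _) (hc _ _) (by rw [← e2]; exact hc _ _))
      (by rw [e3]; exact tan_add_mul (hc _ _) (hc _ _) (by rw [← e3]; exact hc _ _))
      (one_sub_tan_ne (hc _ _) (hc _ _) (by rw [← e1]; exact hc _ _))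
      (one_sub_tan_ne (hc _ _) (hc _ _) (by rw [← e2]; exact hc _ _))
      (one_sub_tan_ne (hc _ _) (hc _ _) (by rw [← e3]; exact hc _ _))
  · intro i j hij
    rw [Real.tan_eq_sin_div_cos]
    exact div_ne_zero (hs i j hij) (hc i j)

end Pool.Agent.TL8
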