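import Pool.Agent.IT8.Lattice
import Pool.Agent.NUBD.Sq
import Pool.Agent.NUQD.DetW
import Pool.Agent.NUT8.Lat
import Pool.Agent.TL8.Den
import Pool.Agent.TL8.Sch

/-!
# The square of the scalars of generic real rows
-/

set_option autoImplicit false

namespace Pool.Agent.TL8

open Matrix Finset Filter Topology

/-! ### products over pairs -/

theorem pair_const {R : Type*} [CommRing R] (n : ℕ) (c : R) :
    (∏ i : Fin n, ∏ _j ∈ Ioi i, c) = c ^ n.choose 2 := by
  induction n with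
  | zero => simp
  | succ n ih =>
    rw [Fin.prod_univ_succ, Fin.prod_Ioi_zero, Finset.prod_const, Finset.card_univ, Fintype.card_fin]
    have h1 : ∀ i : Fin n, ∏ _j ∈ Ioi i.succ, c = ∏ _j ∈ Ioi i, c := fun i => Fin.prod_Ioi_succ (fun _ => c) i
    rw [Finset.prod_congr rfl fun i _ => h1 i, ih, ← pow_add, Nat.choose_succ_succ' n 1, Nat.choose_one_right]

theorem pair_mul {R : Type*} [CommRing R] : ∀ (n : ℕ) (a : Fin n → R),
    (∏ i : Fin n, ∏ j ∈ Ioi i, (a i * a j)) = ∏ k, a k ^ (n - 1) := by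
  intro n
  induction n with
  | zero => intro a; simp
  | succ n ih =>
    intro a
    rw [Fin.prod_univ_succ, Fin.prod_Ioi_zero, Finset.prod_mul_distrib, Finset.prod_const, Finset.card_univ,
      Fintype.card_fin]
    have h1 : ∀ i : Fin n, ∏ j ∈ Ioi i.succ, (a i.succ * a j) = ∏ j ∈ Ioi i, (a i.succ * a j.succ) :=
      fun i => Fin.prod_Ioi_succ (fun j => a i.succ * a j) i
    rw [Finset.prod_congr rfl fun i _ => h1 i, ih (fun i => a i.succ), Fin.prod_univ_succ, Nat.add_sub_cancel,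
      mul_assoc, ← Finset.prod_mul_distrib]
    congr 1
    refine Finset.prod_congr rfl fun i _ => ?_
    rcases n with _ | n
    · exact i.elim0
    · rw [Nat.add_sub_cancel]
      ring

theorem neg_one_choose (m : ℕ) : (-1 : ℂ) ^ (2 * m).choose 2 = (-1) ^ m := by
  rcases m with _ | m
  · simp
  · have h1 : (2 * (m + 1)).choose 2 = (m + 1) * (2 * m + 1) := by
      rw [Nat.choose_two_right]
      have : 2 * (m + 1) * (2 * (m + 1) - 1) = 2 * ((m + 1) * (2 * m + 1)) := by
        rw [show 2 * (m + 1) - 1 = 2 * m + 1 by omega]; ring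
      rw [this, Nat.mul_div_cancel_left _ (by norm_num)]
    rw [h1, mul_comm, pow_mul, Odd.neg_one_pow ⟨m, rfl⟩]

/-! ### the pair functions -/

theorem ccos (u v : ℂ) : Complex.cos (2 * (u - v)) =
    (Complex.exp (Complex.I * u) ^ 2 * Complex.exp (-(Complex.I * v)) ^ 2 +
      Complex.exp (-(Complex.I * u)) ^ 2 * Complex.exp (Complex.I * v) ^ 2) / 2 := by
  rw [Complex.cos, ← Complex.exp_nat_mul, ← Complex.exp_nat_mul, ← Complex.exp_nat_mul, ← Complex.exp_nat_mul,
    ← Complex.exp_add, ← Complex.exp_add]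
  congr 3 <;> push_cast <;> ring

theorem csin (u v : ℂ) : 2 * Complex.I * Complex.sin (u - v) =
    Complex.exp (Complex.I * u) * Complex.exp (-(Complex.I * v)) -
      Complex.exp (-(Complex.I * u)) * Complex.exp (Complex.I * v) := by
  rw [Complex.sin, ← Complex.exp_add, ← Complex.exp_add]
  rw [show Complex.I * u + -(Complex.I * v) = (u - v) * Complex.I by ring,
    show -(Complex.I * u) + Complex.I * v = -(u - v) * Complex.I by ring]
  linear_combination (Complex.exp (-(u - v) * Complex.I) - Complex.exp ((u - v) * Complex.I)) * Complex.I_mul_I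

theorem csin2 (u v : ℂ) : 2 * Complex.I * Complex.sin (2 * (u - v)) =
    Complex.exp (Complex.I * u) ^ 2 * Complex.exp (-(Complex.I * v)) ^ 2 -
      Complex.exp (-(Complex.I * u)) ^ 2 * Complex.exp (Complex.I * v) ^ 2 := by
  have h := csin (2 * u) (2 * v)
  have e : ∀ w : ℂ, Complex.exp (Complex.I * (2 * w)) = Complex.exp (Complex.I * w) ^ 2 := fun w => by
    rw [← Complex.exp_nat_mul]; congr 1; push_cast; ring
  have e' : ∀ w : ℂ, Complex.exp (-(Complex.I * (2 * w))) = Complex.exp (-(Complex.I * w)) ^ 2 := fun w => by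
    rw [← Complex.exp_nat_mul]; congr 1; push_cast; ring
  rw [← mul_sub, e, e, e', e'] at h
  exact h

theorem exp_two (u : ℂ) : Complex.exp (-(2 * Complex.I * u)) = Complex.exp (-(Complex.I * u)) ^ 2 := by
  rw [← Complex.exp_nat_mul]
  congr 1
  push_cast
  ring

theorem exp_mul_neg (u : ℂ) : Complex.exp (Complex.I * u) * Complex.exp (-(Complex.I * u)) = 1 := by
  rw [← Complex.exp_add, add_neg_cancel, Complex.exp_zero]

theorem h_val (u v : ℂ) : NUGas.QD.h NUMv.eta (Complex.exp (-(2 * Complex.I * u))) (Complex.exp (-(2 * Complex.I * v))) =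
    Complex.exp (-(Complex.I * u)) ^ 2 * Complex.exp (-(Complex.I * v)) ^ 2 *
      (2 * Complex.cos (2 * (u - v)) + ((√2 : ℝ) : ℂ)) := by
  unfold NUGas.QD.h
  rw [Pool.Agent.NUF.eta_rt, ccos, exp_two, exp_two]
  have h1 := exp_mul_neg u
  have h2 := exp_mul_neg v
  set a := Complex.exp (-(Complex.I * u))
  set b := Complex.exp (-(Complex.I * v))
  set a' := Complex.exp (Complex.I * u)
  set b' := Complex.exp (Complex.I * v)
  linear_combination (-(b ^ 4) * (a' * a + 1)) * h1 - (a ^ 4) * (b' * b + 1) * h2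

theorem sub_val (u v : ℂ) : Complex.exp (-(2 * Complex.I * u)) - Complex.exp (-(2 * Complex.I * v)) =
    Complex.exp (-(Complex.I * u)) * Complex.exp (-(Complex.I * v)) * (-(2 * Complex.I * Complex.sin (u - v))) := by
  rw [csin, exp_two, exp_two]
  have h1 := exp_mul_neg u
  have h2 := exp_mul_neg v
  set a := Complex.exp (-(Complex.I * u))
  set b := Complex.exp (-(Complex.I * v))
  set a' := Complex.exp (Complex.I * u)
  set b' := Complex.exp (Complex.I * v)
  linear_combination (b ^ 2) * h1 - (a ^ 2) * h2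

theorem sub_sq_val (u v : ℂ) : Complex.exp (-(2 * Complex.I * u)) ^ 2 - Complex.exp (-(2 * Complex.I * v)) ^ 2 =
    Complex.exp (-(Complex.I * u)) ^ 2 * Complex.exp (-(Complex.I * v)) ^ 2 *
      (-(2 * Complex.I * Complex.sin (2 * (u - v)))) := by
  rw [csin2, exp_two, exp_two]
  have h1 := exp_mul_neg u
  have h2 := exp_mul_neg v
  set a := Complex.exp (-(Complex.I * u))
  set b := Complex.exp (-(Complex.I * v))
  set a' := Complex.exp (Complex.I * u)
  set b' := Complex.exp (Complex.I * v)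
  linear_combination (b ^ 4) * (a' * a + 1) * h1 - (a ^ 4) * (b' * b + 1) * h2

/-! ### genericity -/

theorem gen_rows {n : ℕ} (x : Fin n → ℝ) (hx : ∀ i j, i ≠ j → Real.sin (8 * (x i - x j)) ≠ 0) :
    NUGas.Gen NUMv.eta (List.ofFn fun i => Complex.exp (-(2 * Complex.I * (x i : ℂ)))) := by
  constructor
  · intro c hc
    obtain ⟨i, rfl⟩ := (List.mem_ofFn' _ _).1 hc
    exact Complex.exp_ne_zero _
  · rw [List.pairwise_ofFn]
    intro i j hij k hk
    refine hx i j hij.ne ?_
    rw [NUMv.eta, ← Complex.exp_nat_mul, ← Complex.exp_add, Complex.exp_eq_exp_iff_exists_int] at hk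
    obtain ⟨q, hq⟩ := hk
    have h1 : Complex.I * (2 * (x i - x j) : ℂ) = Complex.I * ((k : ℂ) * (2 * (Real.pi / 8)) - q * (2 * Real.pi)) := by
      have : NUMv.el = (Real.pi / 8 : ℂ) := by unfold NUMv.el; push_cast; rfl
      rw [this] at hq
      linear_combination -hq
    have h2 := mul_left_cancel₀ Complex.I_ne_zero h1
    have h3 : (2 * (x i - x j) : ℝ) = (k : ℝ) * (2 * (Real.pi / 8)) - q * (2 * Real.pi) := by
      apply Complex.ofReal_injective
      push_cast
      exact h2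
    have h4 : 8 * (x i - x j) = ((k : ℤ) - 8 * q : ℤ) * Real.pi := by
      push_cast
      linarith
    rw [h4]
    exact Real.sin_int_mul_pi _

/-- the scalars of real rows -/
noncomputable def BF {n : ℕ} (x : Fin n → ℝ) : ℂ := NUBD.BD (fun i : Fin n => (x i : ℂ)) (List.finRange n)

/-- **The square of the scalars, generic real rows.** -/
theorem BF_sq {m : ℕ} (x : Fin (2 * m) → ℝ) (hx : ∀ i j, i ≠ j → Real.sin (8 * (x i - x j)) ≠ 0)
    (hs : ∀ i j, i ≠ j → Real.sin (x i - x j) ≠ 0) (hk : ∀ i j, Real.cos (2 * (x i - x j)) + √2 / 2 ≠ 0) :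
    BF x ^ 2 = (((∏ i, ∏ j ∈ Ioi i, ((Real.cos (2 * (x i - x j)) + √2 / 2) / (2 * Real.sin (x i - x j)))) ^ 2 *
      (Matrix.of fun i j => Real.sin (2 * (x i - x j)) / (Real.cos (2 * (x i - x j)) + √2 / 2)).det : ℝ) : ℂ) := by
  set z : Fin (2 * m) → ℂ := fun i => (x i : ℂ) with hz
  have h1 := NUBD.BD_sq_Wd z (List.finRange (2 * m)) []
  rw [List.append_nil, List.map_nil, Pool.Agent.NUF.Wd0_det, List.append_nil] at h1
  swap
  · rw [List.append_nil, ← List.ofFn_eq_map]
    exact gen_rows x hx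
  rw [← List.ofFn_eq_map, ← List.ofFn_eq_map, NUGas.QD.DD_ofFn ⟨m, by ring⟩, List.prod_ofFn,
    List.length_finRange, NUBD.dg_choose] at h1
  set E : Fin (2 * m) → ℂ := fun i => Complex.exp (-(Complex.I * (x i : ℂ))) with hE
  set g : Fin (2 * m) → Fin (2 * m) → ℝ := fun i j =>
    (Real.cos (2 * (x i - x j)) + √2 / 2) / (2 * Real.sin (x i - x j)) with hg
  have hI : Complex.I ≠ 0 := Complex.I_ne_zero
  have e1 : (∏ i, ∏ j ∈ Ioi i, NUGas.QD.h NUMv.eta (Complex.exp (-(2 * Complex.I * z i)))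
      (Complex.exp (-(2 * Complex.I * z j))) / (Complex.exp (-(2 * Complex.I * z i)) -
        Complex.exp (-(2 * Complex.I * z j)))) =
      (∏ k, E k ^ (2 * m - 1)) * (2 * Complex.I) ^ (2 * m).choose 2 * ∏ i, ∏ j ∈ Ioi i, ((g i j : ℝ) : ℂ) := by
    rw [← pair_mul, ← pair_const, ← Finset.prod_mul_distrib, ← Finset.prod_mul_distrib]
    refine Finset.prod_congr rfl fun i _ => ?_
    rw [← Finset.prod_mul_distrib, ← Finset.prod_mul_distrib]
    refine Finset.prod_congr rfl fun j hj => ?_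
    have hij : i ≠ j := (Finset.mem_Ioi.1 hj).ne
    have hs1 : Complex.sin (z i - z j) ≠ 0 := by
      have := hs i j hij
      simp only [hz]
      exact_mod_cast this
    rw [h_val, sub_val]
    simp only [hg, hE, hz] at hs1 ⊢
    push_cast
    have ea := Complex.exp_ne_zero (-(Complex.I * (x i : ℂ)))
    have eb := Complex.exp_ne_zero (-(Complex.I * (x j : ℂ)))
    rw [div_eq_iff (mul_ne_zero (mul_ne_zero ea eb) (neg_ne_zero.2 (mul_ne_zero (mul_ne_zero two_ne_zero hI) hs1)))]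
    field_simp
    linear_combination (2 * Complex.cos (2 * ((x i : ℂ) - x j)) + (√2 : ℝ)) * Complex.I_sq
  have e2 : (Matrix.of fun i j : Fin (2 * m) => (Complex.exp (-(2 * Complex.I * z i)) ^ 2 -
      Complex.exp (-(2 * Complex.I * z j)) ^ 2) / NUGas.QD.h NUMv.eta (Complex.exp (-(2 * Complex.I * z i)))
        (Complex.exp (-(2 * Complex.I * z j)))).det =
      (-1) ^ m * (((Matrix.of fun i j : Fin (2 * m) => Real.sin (2 * (x i - x j)) /
        (Real.cos (2 * (x i - x j)) + √2 / 2)).det : ℝ) : ℂ) := by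
    have e3 : (Matrix.of fun i j : Fin (2 * m) => (Complex.exp (-(2 * Complex.I * z i)) ^ 2 -
        Complex.exp (-(2 * Complex.I * z j)) ^ 2) / NUGas.QD.h NUMv.eta (Complex.exp (-(2 * Complex.I * z i)))
          (Complex.exp (-(2 * Complex.I * z j)))) = (-Complex.I) • (Matrix.of fun i j : Fin (2 * m) =>
        Real.sin (2 * (x i - x j)) / (Real.cos (2 * (x i - x j)) + √2 / 2)).map (Complex.ofRealHom) := by
      ext i j
      rw [Matrix.of_apply, h_val, sub_sq_val]
      simp only [Matrix.smul_apply, Matrix.map_apply, Matrix.of_apply, smul_eq_mul, Complex.ofRealHom_eq_coe, hz]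
      have hk1 : Complex.cos (2 * ((x i : ℂ) - x j)) + ((√2 : ℝ) : ℂ) / 2 ≠ 0 := by
        have := hk i j
        exact_mod_cast this
      have hk2 : 2 * Complex.cos (2 * ((x i : ℂ) - x j)) + ((√2 : ℝ) : ℂ) ≠ 0 := by
        intro h
        apply hk1
        linear_combination h / 2
      have ea := Complex.exp_ne_zero (-(Complex.I * (x i : ℂ)))
      have eb := Complex.exp_ne_zero (-(Complex.I * (x j : ℂ)))
      push_cast
      rw [mul_div_mul_left _ _ (mul_ne_zero (pow_ne_zero _ ea) (pow_ne_zero _ eb)), mul_div_assoc',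
        div_eq_div_iff hk2 hk1]
      ring
    rw [e3, Matrix.det_smul, Fintype.card_fin, pow_mul, neg_sq, Complex.I_sq, ← RingHom.mapMatrix_apply,
      ← RingHom.map_det]
    rfl
  have e4 : (∏ i : Fin (2 * m), Complex.exp (2 * Complex.I * (((2 * m : ℕ) : ℂ) - 1) * z i)) *
      (∏ k, E k ^ (2 * m - 1)) ^ 2 = 1 := by
    rw [← Finset.prod_pow, ← Finset.prod_mul_distrib]
    refine Finset.prod_eq_one fun k _ => ?_
    have hm : 1 ≤ 2 * m := by
      have := k.2
      omega
    rw [hE, ← pow_mul, ← Complex.exp_nat_mul, ← Complex.exp_add, Complex.exp_eq_one_iff]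
    refine ⟨0, ?_⟩
    push_cast [Nat.cast_sub hm]
    simp only [hz]
    ring
  have e5 : ((1 : ℂ) / 2) ^ (2 * (2 * m).choose 2) * ((2 * Complex.I) ^ (2 * m).choose 2) ^ 2 = (-1) ^ m := by
    have h2 : ((2 * Complex.I) ^ (2 * m).choose 2) ^ 2 = ((2 * Complex.I) ^ 2) ^ (2 * m).choose 2 := by
      rw [← pow_mul, ← pow_mul, mul_comm ((2 * m).choose 2) 2]
    rw [← neg_one_choose, h2, pow_mul, ← mul_pow]
    congr 1
    rw [mul_pow, Complex.I_sq]
    norm_num
  have e6 : ((-1 : ℂ) ^ m) * (-1) ^ m = 1 := by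
    rw [← mul_pow]
    simp
  unfold BF
  rw [h1, e1, e2, Complex.ofReal_mul, Complex.ofReal_pow]
  have e7 : (((∏ i, ∏ j ∈ Ioi i, g i j : ℝ) : ℝ) : ℂ) = ∏ i, ∏ j ∈ Ioi i, ((g i j : ℝ) : ℂ) := by
    push_cast
    rfl
  rw [e7]
  linear_combination ((1 / 2 : ℂ) ^ (2 * (2 * m).choose 2) * ((2 * Complex.I) ^ (2 * m).choose 2) ^ 2 *
      (∏ i, ∏ j ∈ Ioi i, ((g i j : ℝ) : ℂ)) ^ 2 * (-1) ^ m * (((Matrix.of fun i j : Fin (2 * m) =>
        Real.sin (2 * (x i - x j)) / (Real.cos (2 * (x i - x j)) + √2 / 2)).det : ℝ) : ℂ)) * e4 +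
    ((∏ i, ∏ j ∈ Ioi i, ((g i j : ℝ) : ℂ)) ^ 2 * (-1) ^ m * (((Matrix.of fun i j : Fin (2 * m) =>
        Real.sin (2 * (x i - x j)) / (Real.cos (2 * (x i - x j)) + √2 / 2)).det : ℝ) : ℂ)) * e5 +
    ((∏ i, ∏ j ∈ Ioi i, ((g i j : ℝ) : ℂ)) ^ 2 * (((Matrix.of fun i j : Fin (2 * m) =>
        Real.sin (2 * (x i - x j)) / (Real.cos (2 * (x i - x j)) + √2 / 2)).det : ℝ) : ℂ)) * e6

end Pool.Agent.TL8
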