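import Mathlib

/-!
# Total positivity of the exponential kernel (weak form)
-/

set_option autoImplicit false

namespace Pool.Agent.TL8

open Matrix Finset MeasureTheory

/-- the exponential matrix -/
noncomputable def EM {n : ℕ} (c z : Fin n → ℝ) : Matrix (Fin n) (Fin n) ℝ :=
  Matrix.of fun a b => Real.exp (c b * z a)

/-- the Vandermonde product -/
noncomputable def VP {n : ℕ} (c : Fin n → ℝ) : ℝ := ∏ i, ∏ j ∈ Ioi i, (c j - c i)

theorem VP_succ {n : ℕ} (c : Fin (n + 1) → ℝ) :
    VP c = (∏ j : Fin n, (c j.succ - c 0)) * VP (fun j : Fin n => c j.succ - c 0) := by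
  unfold VP
  rw [Fin.prod_univ_succ]
  congr 1
  · rw [Fin.prod_Ioi_zero]
  · refine Finset.prod_congr rfl fun i _ => ?_
    rw [Fin.prod_Ioi_succ]
    refine Finset.prod_congr rfl fun j _ => ?_
    ring

theorem EM_shift {n : ℕ} (c z : Fin n → ℝ) (s : ℝ) :
    (EM c z).det = (∏ a, Real.exp (s * z a)) * (EM (fun b => c b - s) z).det := by
  rw [← Matrix.det_mul_column]
  congr 1
  ext a b
  simp only [EM, Matrix.of_apply]
  rw [← Real.exp_add]
  congr 1
  ring

/-- expansion of a determinant whose first column is `1` -/
theorem det_ones {n : ℕ} (M : Matrix (Fin (n + 1)) (Fin (n + 1)) ℝ) (h : ∀ a, M a 0 = 1) :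
    M.det = (Matrix.of fun a b : Fin n => M a.succ b.succ - M a.castSucc b.succ).det := by
  set B : Matrix (Fin (n + 1)) (Fin (n + 1)) ℝ := Matrix.of fun a b =>
    Fin.cases (motive := fun _ => ℝ) (M 0 b) (fun i => M i.succ b - M i.castSucc b) a with hB
  have h1 : M.det = B.det := by
    refine Matrix.det_eq_of_forall_row_eq_smul_add_pred (fun _ => 1) (fun j => ?_) fun i j => ?_
    · simp [hB]
    · simp [hB]
  rw [h1, Matrix.det_succ_column_zero, Fin.sum_univ_succ]
  have h2 : ∀ i : Fin n, B i.succ 0 = 0 := fun i => by simp [hB, h]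
  have h3 : B 0 0 = 1 := by simp [hB, h]
  simp only [h2, h3]
  simp only [Fin.val_zero, pow_zero, one_mul, mul_zero, zero_mul, Finset.sum_const_zero, add_zero]
  congr 1

theorem exp_sub_exp {d x y : ℝ} (h : x ≤ y) :
    Real.exp (d * y) - Real.exp (d * x) = d * ∫ t, (Set.Ioc x y).indicator (fun t => Real.exp (d * t)) t := by
  rw [integral_indicator measurableSet_Ioc, ← intervalIntegral.integral_of_le h,
    ← intervalIntegral.integral_const_mul]
  rw [intervalIntegral.integral_eq_sub_of_hasDerivAt (f := fun t => Real.exp (d * t))]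
  · intro t _
    have := ((hasDerivAt_id t).const_mul d).exp
    simpa [mul_comm] using this
  · apply Continuous.intervalIntegrable
    fun_prop

/-- the determinant of integrals -/
theorem det_integral {n : ℕ} (f : Fin n → Fin n → ℝ → ℝ) (hf : ∀ a b, Integrable (f a b)) :
    (Matrix.of fun a b => ∫ t, f a b t).det =
      ∫ x : Fin n → ℝ, (Matrix.of fun a b => f a b (x a)).det := by
  have h1 : ∀ M : Matrix (Fin n) (Fin n) ℝ, M.det = ∑ σ : Equiv.Perm (Fin n), (Equiv.Perm.sign σ : ℤ) * ∏ a, M a (σ a) := by
    intro M
    rw [← Matrix.det_transpose, Matrix.det_apply']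
    rfl
  rw [h1]
  simp only [h1 (Matrix.of _), Matrix.of_apply]
  rw [integral_finset_sum]
  · refine Finset.sum_congr rfl fun σ _ => ?_
    rw [integral_const_mul, integral_fintype_prod_volume_eq_prod (f := fun a t => f a (σ a) t)]
  · intro σ _
    exact (Integrable.fintype_prod (f := fun a t => f a (σ a) t) fun a => hf a (σ a)).const_mul _

theorem tp : ∀ {n : ℕ} (c z : Fin n → ℝ), Monotone z → 0 ≤ (EM c z).det * VP c := by
  intro n
  induction n with
  | zero =>
    intro c z _
    simp [VP]
  | succ n ih =>
    intro c z hz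
    set d : Fin n → ℝ := fun j => c j.succ - c 0 with hd
    rw [EM_shift c z (c 0), det_ones _ (fun a => by simp [EM]), VP_succ]
    have h1 : (Matrix.of fun a b : Fin n => EM (fun b => c b - c 0) z a.succ b.succ -
        EM (fun b => c b - c 0) z a.castSucc b.succ) = Matrix.of fun a b : Fin n =>
        d b * (Matrix.of fun a b : Fin n => ∫ t, (Set.Ioc (z a.castSucc) (z a.succ)).indicator
          (fun t => Real.exp (d b * t)) t) a b := by
      ext a b
      simp only [EM, Matrix.of_apply]
      exact exp_sub_exp (hz (Fin.castSucc_lt_succ (i := a)).le)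
    rw [h1, Matrix.det_mul_row, det_integral]
    · have h2 : 0 ≤ (∫ x : Fin n → ℝ, (Matrix.of fun a b : Fin n => (Set.Ioc (z a.castSucc) (z a.succ)).indicator
          (fun t => Real.exp (d b * t)) (x a)).det) * VP d := by
        rw [← integral_mul_const]
        refine integral_nonneg fun x => ?_
        show 0 ≤ (Matrix.of fun a b : Fin n => (Set.Ioc (z a.castSucc) (z a.succ)).indicator
          (fun t => Real.exp (d b * t)) (x a)).det * VP d
        by_cases hx : ∀ a : Fin n, x a ∈ Set.Ioc (z a.castSucc) (z a.succ)
        · have h3 : (Matrix.of fun a b : Fin n => (Set.Ioc (z a.castSucc) (z a.succ)).indicator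
              (fun t => Real.exp (d b * t)) (x a)) = EM d x := by
            ext a b
            simp only [EM, Matrix.of_apply]
            rw [Set.indicator_of_mem (hx a)]
          rw [h3]
          apply ih
          intro a b hab
          rcases hab.eq_or_lt with rfl | hlt
          · exact le_rfl
          · have h5 : a.succ ≤ b.castSucc := by
              rw [Fin.le_def, Fin.val_succ, Fin.val_castSucc]
              exact hlt
            exact ((hx a).2.trans (hz h5)).trans (hx b).1.le
        · obtain ⟨a, ha⟩ := not_forall.1 hx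
          rw [Matrix.det_eq_zero_of_row_eq_zero a fun b => ?_, zero_mul]
          simp only [Matrix.of_apply]
          rw [Set.indicator_of_notMem ha]
      have h4 : 0 ≤ ∏ a, Real.exp (c 0 * z a) := Finset.prod_nonneg fun a _ => (Real.exp_pos _).le
      have h5 : 0 ≤ (∏ j, d j) * ∏ j, d j := mul_self_nonneg _
      have := mul_nonneg (mul_nonneg h4 h5) h2
      refine this.trans (le_of_eq ?_)
      ring
    · intro a b
      rw [integrable_indicator_iff measurableSet_Ioc]
      apply (Continuous.integrableOn_Icc (by fun_prop)).mono_set Set.Ioc_subset_Icc_self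

end Pool.Agent.TL8
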